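import Pool.Agent.K6.H81.PS.Un

/-!
# The bound for bounded support
-/

set_option autoImplicit false
set_option linter.unusedSectionVars false
set_option linter.unusedVariables false

namespace Pool.Agent.K6.H81.PS

open MeasureTheory Set
open scoped ENNReal InnerProductSpace
open Pool.Agent.H212R2.KLS (mu Bdd)
open Pool.Agent.H888R2.KT (untiltq)
open Pool.Agent.H888R2.KT.G2x (intg)
open Pool.Agent.TH594.KP (ev inner_ev inner_ev_ev swp swp_ev swp_apply GG GD Bs mem_Bs card_Bs_pos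
  ed sum_ed lev lev_closed lev_convex lev_mono ns P P_apply norm_P_le cH cH_pos)

variable {δ β κ : Type} [Fintype δ] [Fintype β] [Fintype κ] [DecidableEq δ] [DecidableEq β]
  [DecidableEq κ]

section free

variable {ι : Type} [Fintype ι] [DecidableEq ι]
variable {b : ι → β} {Z : Finset β} {j : V κ →ₗᵢ[ℝ] V (ι × δ)} {ρ : V κ → ℝ} {r : ℝ}

/-- the directions of the free centres of mass -/
abbrev Sf (δ : Type) {β : Type} (Z : Finset β) : Type := {c : β × δ // c.1 ∉ Z}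

/-- the directions of the free centres of mass -/
noncomputable def ef (δ : Type) [Fintype δ] [DecidableEq δ] {β : Type} [Fintype β] [DecidableEq β]
    {ι : Type} [Fintype ι] [DecidableEq ι] (b : ι → β) (Z : Finset β)
    (i : Fin (Fintype.card (Sf δ Z))) : V (ι × δ) := ev b ((Fintype.equivFin (Sf δ Z)).symm i).1

theorem ef_on (hb : Function.Surjective b) : Orthonormal ℝ (ef δ b Z) := by
  rw [orthonormal_iff_ite]
  intro i i'
  unfold ef
  rw [inner_ev_ev hb]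
  by_cases h : i = i'
  · subst h
    simp
  · rw [if_neg h, if_neg]
    intro h2
    exact h ((Fintype.equivFin (Sf δ Z)).symm.injective (Subtype.ext h2))

theorem ef_fix : ∀ g ∈ GG δ b, ∀ i, g (ef δ b Z i) = ef δ b Z i := by
  rintro g ⟨k, l, hkl, rfl⟩ i
  exact swp_ev b _ k l hkl

theorem ef_sum (v : V (ι × δ)) : ∑ c : β × δ, ⟪ev b c, v⟫_ℝ ^ 2 =
    EZ b Z v + ∑ i, ⟪ef δ b Z i, v⟫_ℝ ^ 2 := by
  have h1 : ∑ i, ⟪ef δ b Z i, v⟫_ℝ ^ 2 = ∑ c : Sf δ Z, ⟪ev b c.1, v⟫_ℝ ^ 2 := by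
    unfold ef
    exact Equiv.sum_comp (Fintype.equivFin (Sf δ Z)).symm fun c : Sf δ Z => ⟪ev b c.1, v⟫_ℝ ^ 2
  rw [h1]
  unfold EZ
  exact (Fintype.sum_subtype_add_sum_subtype (fun c : β × δ => c.1 ∈ Z)
    fun c => ⟪ev b c, v⟫_ℝ ^ 2).symm

theorem card_Sf : Fintype.card (Sf δ Z) = q0 Z * Fintype.card δ := by
  rw [← Fintype.card_prod]
  exact Fintype.card_congr (Equiv.prodSubtypeFstEquivSubtypeProd (p := fun c : β => c ∉ Z))

theorem norm_ev (hb : Function.Surjective b) (c : β × δ) : ‖ev b c‖ = 1 := by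
  have h4 := inner_ev_ev hb c c
  rw [if_pos rfl, real_inner_self_eq_norm_sq] at h4
  have h5 : 0 ≤ ‖ev b c‖ := norm_nonneg _
  nlinarith [sq_nonneg (‖ev b c‖ - 1)]

theorem As.mom' (h : As b Z j ρ r) (i : Fin (Fintype.card (Sf δ Z))) :
    ∫ x, ⟪ef δ b Z i, x⟫_ℝ ^ 2 ∂(mu (rp b Z j r ρ)) ≤ r ^ 2 := by
  obtain ⟨c, hc⟩ : ∃ c, c = (Fintype.equivFin (Sf δ Z)).symm i := ⟨_, rfl⟩
  have he : ef δ b Z i = ev b c.1 := by rw [hc]; rfl
  obtain ⟨θ, hθ⟩ : ∃ θ : V κ, θ = jt j (ev b c.1) := ⟨_, rfl⟩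
  have h1 : ∀ x : V (ι × δ), ⟪ef δ b Z i, x⟫_ℝ = ⟪θ, jt j x⟫_ℝ := by
    intro x
    rw [he, hθ, inner_jt, h.par.j_jt, inner_sub_right, inner_sum]
    have h2 : ∑ c' : Sg δ Z, ⟪ev b c.1, ⟪ev b c'.1, x⟫_ℝ • ev b c'.1⟫_ℝ = 0 := by
      refine Finset.sum_eq_zero fun c' _ => ?_
      rw [real_inner_smul_right, inner_ev_ev h.par.sur, if_neg, mul_zero]
      intro h3
      exact c.2 (by rw [h3]; exact c'.2)
    rw [h2, sub_zero]
  simp_rw [h1]
  rw [rp_int (F := fun y => ⟪θ, y⟫_ℝ ^ 2) h.par h.r0 h.nonneg h.meas (by fun_prop)]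
  refine (h.mom θ).trans ?_
  have h2 : ‖θ‖ ≤ 1 := by
    rw [hθ]
    exact (norm_jt j _).trans (norm_ev h.par.sur _).le
  have h3 : ‖θ‖ ^ 2 ≤ 1 := by
    calc ‖θ‖ ^ 2 ≤ 1 ^ 2 := pow_le_pow_left₀ (norm_nonneg _) h2 2
      _ = 1 := one_pow 2
  exact mul_le_of_le_one_right (sq_nonneg _) h3

end free

/-- the factor: dimension `d`, number `q` of species with free centre of mass -/
noncomputable def fac (d q : ℕ) (T : ℝ) : ℝ :=
  (d : ℝ) ^ 6 * (1 + q) * (1 + T + Real.log (1 + q)) ^ 2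

theorem log_two : Real.log 2 ≤ 1 := by
  have := Real.log_two_lt_d9
  linarith

/-- numerical inequality -/
theorem num (d q T M : ℝ) (hd : 1 ≤ d) (hq : 0 ≤ q) (hT : 0 ≤ T)
    (hM : M = 1 + T + Real.log (2 * d) + 2 * Real.log (2 * (1 + q))) :
    (1 + M) ^ 2 ≤ 100 * d * (1 + T + Real.log (1 + q)) ^ 2 := by
  have h1 : Real.log (2 * d) = Real.log 2 + Real.log d := Real.log_mul (by norm_num) (by linarith)
  have h2 : Real.log (2 * (1 + q)) = Real.log 2 + Real.log (1 + q) :=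
    Real.log_mul (by norm_num) (by linarith)
  have h3 := log_two
  obtain ⟨x, hx⟩ : ∃ x : ℝ, x = Real.log d := ⟨_, rfl⟩
  obtain ⟨y, hy⟩ : ∃ y : ℝ, y = Real.log (1 + q) := ⟨_, rfl⟩
  have hx0 : 0 ≤ x := by rw [hx]; exact Real.log_nonneg hd
  have hy0 : 0 ≤ y := by rw [hy]; exact Real.log_nonneg (by linarith)
  have h4 : 1 + M ≤ 5 * ((1 + x) * (1 + T + y)) := by
    rw [hM, h1, h2, ← hx, ← hy]
    have h5 : 0 ≤ x * T := by positivity
    have h6 : 0 ≤ x * y := by positivity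
    nlinarith
  have h5 : (1 + x) ^ 2 ≤ 4 * d := by
    have h6 : x = 2 * Real.log (Real.sqrt d) := by
      rw [hx, Real.log_sqrt (by linarith)]
      ring
    have h7 : 0 < Real.sqrt d := Real.sqrt_pos.2 (by linarith)
    have h8 := Real.log_le_sub_one_of_pos h7
    have h9 : 1 + x ≤ 2 * Real.sqrt d := by linarith
    calc (1 + x) ^ 2 ≤ (2 * Real.sqrt d) ^ 2 := pow_le_pow_left₀ (by linarith) h9 2
      _ = 4 * (Real.sqrt d) ^ 2 := by ring
      _ = 4 * d := by rw [Real.sq_sqrt (by linarith)]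
  have hM0 : 0 ≤ 1 + M := by
    rw [hM, h1, h2, ← hx, ← hy]
    have : 0 ≤ Real.log 2 := Real.log_nonneg (by norm_num)
    linarith
  rw [← hy]
  calc (1 + M) ^ 2 ≤ (5 * ((1 + x) * (1 + T + y))) ^ 2 := pow_le_pow_left₀ hM0 h4 2
    _ = 25 * (1 + x) ^ 2 * (1 + T + y) ^ 2 := by ring
    _ ≤ 25 * (4 * d) * (1 + T + y) ^ 2 := by
      refine mul_le_mul_of_nonneg_right ?_ (sq_nonneg _)
      linarith
    _ = _ := by ring

/-- **the bound for bounded support** -/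
theorem core : ∃ C : ℝ, 0 < C ∧ ∀ {n : ℕ} {δ β κ : Type} [Fintype δ] [DecidableEq δ]
    [Fintype β] [DecidableEq β] [Fintype κ] [DecidableEq κ] {b : Fin n → β} {Z : Finset β}
    {j : V κ →ₗᵢ[ℝ] V (Fin n × δ)} {ρ : V κ → ℝ} {r : ℝ} (_ : As b Z j ρ r)
    (_ : 0 < Fintype.card δ) {T : ℝ} (_ : 0 ≤ T)
    (_ : ∑ c ∈ Z, Real.exp (-(T * (Bs b c).card)) ≤ 1)
    (f : V κ → ℝ) (_ : ContDiff ℝ 1 f) (_ : ∀ x, ‖fderiv ℝ f x‖ ≤ 1),
    ∫ x, f x ^ 2 ∂(mu ρ) - (∫ x, f x ∂(mu ρ)) ^ 2 ≤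
      C * fac (Fintype.card δ) (q0 Z) T * r ^ 2 := by
  obtain ⟨C₁, hC₁, huntilt⟩ := untiltq
  have hcH := cH_pos
  have hlam := lam_pos
  refine ⟨4000000 * (C₁ * (256 * cH * lam ^ 2 + 2)), by positivity, ?_⟩
  intro n δ β κ _ _ _ _ _ _ b Z j ρ r h hδ T hT hTs f hf hf1
  have hprob : IsProbabilityMeasure (mu (rp b Z j r ρ)) := ⟨h.mass'⟩
  obtain ⟨d, hd⟩ : ∃ d : ℝ, d = Fintype.card δ := ⟨_, rfl⟩
  obtain ⟨q, hq⟩ : ∃ q : ℝ, q = q0 Z := ⟨_, rfl⟩
  obtain ⟨M, hM⟩ : ∃ M : ℝ, M = Mm δ Z T := ⟨_, rfl⟩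
  have hd1 : 1 ≤ d := by rw [hd]; exact_mod_cast hδ
  have hq1 : 0 ≤ q := by rw [hq]; exact Nat.cast_nonneg _
  have hM1 : 1 ≤ M := by rw [hM]; exact Mm_pos hδ Z hT
  have hr := h.r0
  have hlv : ∀ t : ℝ, lv δ Z T r t = 8 * lam * d * r * (t + M) := fun t => by
    unfold lv
    rw [hd, hM]
  have hnum := num d q T M hd1 hq1 hT (by rw [hM, hd, hq]; rfl)
  obtain ⟨Lg, hLg⟩ : ∃ Lg : ℝ, Lg = 1 + T + Real.log (1 + q) := ⟨_, rfl⟩
  rw [← hLg] at hnum
  have hjc : ContDiff ℝ 1 (fun x : V (Fin n × δ) => jt j x) := (jt j).contDiff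
  have hF : ContDiff ℝ 1 (fun x : V (Fin n × δ) => f (jt j x)) := hf.comp hjc
  have hF1 : ∀ x, ‖fderiv ℝ (fun x : V (Fin n × δ) => f (jt j x)) x‖ ≤ 1 := by
    intro x
    have h1 : fderiv ℝ (fun x : V (Fin n × δ) => f (jt j x)) x =
        (fderiv ℝ f (jt j x)).comp (jt j) := by
      have h2 := fderiv_comp x (hf.differentiable (by norm_num) (jt j x))
        (jt j).differentiableAt (𝕜 := ℝ)
      rw [ContinuousLinearMap.fderiv] at h2
      exact h2
    rw [h1]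
    refine (ContinuousLinearMap.opNorm_comp_le _ _).trans ?_
    have h3 : ‖jt j‖ ≤ 1 := by
      refine ContinuousLinearMap.opNorm_le_bound _ zero_le_one fun y => ?_
      rw [one_mul]
      exact norm_jt j y
    calc ‖fderiv ℝ f (jt j x)‖ * ‖jt j‖ ≤ 1 * 1 :=
          mul_le_mul (hf1 _) h3 (norm_nonneg _) zero_le_one
      _ = 1 := one_mul 1
  have hmain := Pool.Agent.TH594.KP.Mul.multi0 (mu (rp b Z j r ρ)) h.ball
    (fun t => lev b (lv δ Z T r t))
    (fun t => (lev_closed b _).measurableSet)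
    (fun t t' htt => lev_mono b (by
      rw [hlv, hlv]
      exact mul_le_mul_of_nonneg_left (by linarith) (by positivity)))
    (fun t ht => h.tail hδ hT hTs t ht)
    (100 * (C₁ * (256 * cH * lam ^ 2 + 2)) * (d ^ 6 * (1 + q) * Lg ^ 2) * r ^ 2) (by
      have : 0 < Lg := by
        rw [hLg]
        have := Real.log_nonneg (by linarith : 1 ≤ 1 + q)
        linarith
      positivity)
    (fun t ht g hg => by
      have ht1 : 1 ≤ t := by linarith
      have hhalf : 1 / 2 ≤ (mu (rp b Z j r ρ) (lev b (lv δ Z T r t))).toReal := by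
        have h2 := h.tail hδ hT hTs t ht1
        have h3 : (mu (rp b Z j r ρ)).real (lev b (lv δ Z T r t))ᶜ ≤
            Real.exp (-(t / 2)) := by
          rw [measureReal_def]
          exact ENNReal.toReal_le_of_le_ofReal (Real.exp_pos _).le h2
        rw [probReal_compl_eq_one_sub (lev_closed b _).measurableSet] at h3
        have h4 : Real.exp (-(t / 2)) ≤ 1 / 2 := by
          rw [Real.exp_neg, inv_le_comm₀ (Real.exp_pos _) (by norm_num)]
          have := Real.add_one_le_exp (t / 2)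
          linarith
        rw [← measureReal_def]
        linarith
      have hlv0 : 0 < lv δ Z T r t := by
        rw [hlv]
        positivity
      obtain ⟨c, hc⟩ := loc huntilt h.par.sur (Z := Z) (rp b Z j r ρ) h.gd (rp_bdd h.par h.bdd)
        h.mass' h.ball (ef δ b Z) (ef_on h.par.sur) ef_fix ef_sum (r ^ 2) (by positivity)
        (fun K hK x y => rp_mid h.nonneg h.logc hr K hK x y) h.mom' (lv δ Z T r t) hlv0 _ rfl
        hhalf g hg
      refine ⟨c, hc.trans (mul_le_mul_of_nonneg_right ?_ (integral_nonneg fun x => by positivity))⟩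
      have e2 : (Fintype.card (Sf δ Z) : ℝ) = q * d := by
        rw [card_Sf, hq, hd]
        push_cast
        ring
      rw [← hd, e2, hlv]
      have h5 : (t + M) ^ 2 ≤ (1 + M) ^ 2 * t ^ 2 := by
        have h6 : t + M ≤ (1 + M) * t := by nlinarith
        calc (t + M) ^ 2 ≤ ((1 + M) * t) ^ 2 := pow_le_pow_left₀ (by positivity) h6 2
          _ = _ := by ring
      have h7 : (d + 1) ^ 2 ≤ 4 * d ^ 2 := by nlinarith
      have hE : 0 ≤ (1 + M) ^ 2 * t ^ 2 * r ^ 2 := by positivity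
      have h8 : cH * (d + 1) ^ 2 * (8 * lam * d * r * (t + M)) ^ 2 ≤
          256 * cH * lam ^ 2 * (d ^ 4 * ((1 + M) ^ 2 * t ^ 2 * r ^ 2)) := by
        calc cH * (d + 1) ^ 2 * (8 * lam * d * r * (t + M)) ^ 2
            = cH * (d + 1) ^ 2 * (64 * lam ^ 2 * d ^ 2 * r ^ 2 * (t + M) ^ 2) := by ring
          _ ≤ cH * (4 * d ^ 2) * (64 * lam ^ 2 * d ^ 2 * r ^ 2 * ((1 + M) ^ 2 * t ^ 2)) := by
              gcongr
          _ = _ := by ring
      have h9 : 2 * r ^ 2 ≤ 2 * (d ^ 4 * ((1 + M) ^ 2 * t ^ 2 * r ^ 2)) := by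
        have ha : 1 ≤ d ^ 4 := one_le_pow₀ hd1
        have hb' : 1 ≤ (1 + M) ^ 2 := one_le_pow₀ (by linarith)
        have hc' : 1 ≤ t ^ 2 := one_le_pow₀ ht1
        have h10 : 1 ≤ d ^ 4 * ((1 + M) ^ 2 * t ^ 2) :=
          one_le_mul_of_one_le_of_one_le ha (one_le_mul_of_one_le_of_one_le hb' hc')
        have h11 : 1 * r ^ 2 ≤ (d ^ 4 * ((1 + M) ^ 2 * t ^ 2)) * r ^ 2 :=
          mul_le_mul_of_nonneg_right h10 (sq_nonneg _)
        linarith
      have h12 : q * d + 1 ≤ d * (1 + q) := by linarith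
      calc C₁ * (q * d + 1) * (cH * (d + 1) ^ 2 * (8 * lam * d * r * (t + M)) ^ 2 + 2 * r ^ 2)
          ≤ C₁ * (d * (1 + q)) * (256 * cH * lam ^ 2 * (d ^ 4 * ((1 + M) ^ 2 * t ^ 2 * r ^ 2)) +
            2 * (d ^ 4 * ((1 + M) ^ 2 * t ^ 2 * r ^ 2))) := by
            refine mul_le_mul (mul_le_mul_of_nonneg_left h12 hC₁.le) (by linarith) (by positivity)
              (by positivity)
        _ = C₁ * (256 * cH * lam ^ 2 + 2) * (d ^ 5 * (1 + q)) * r ^ 2 * t ^ 2 * (1 + M) ^ 2 := by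
            ring
        _ ≤ C₁ * (256 * cH * lam ^ 2 + 2) * (d ^ 5 * (1 + q)) * r ^ 2 * t ^ 2 *
            (100 * d * Lg ^ 2) := mul_le_mul_of_nonneg_left hnum (by positivity)
        _ = 100 * (C₁ * (256 * cH * lam ^ 2 + 2)) * (d ^ 6 * (1 + q) * Lg ^ 2) * r ^ 2 * t ^ 2 := by
            ring)
    (fun x => f (jt j x)) hF hF1
  have hi1 := rp_int (F := fun y => f y ^ 2) h.par hr h.nonneg h.meas (by
    exact hf.continuous.pow 2)
  have hi2 := rp_int (F := fun y => f y) h.par hr h.nonneg h.meas hf.continuous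
  rw [hi1, hi2] at hmain
  refine hmain.trans (le_of_eq ?_)
  unfold fac
  rw [← hq, ← hd, ← hLg]
  ring

end Pool.Agent.K6.H81.PS
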