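import Pool.Agent.K6.H81.PS.Prod

/-!
# The product density
-/

set_option autoImplicit false
set_option linter.unusedSectionVars false
set_option linter.unusedVariables false

namespace Pool.Agent.K6.H81.PS

open MeasureTheory Set
open scoped ENNReal InnerProductSpace
open Pool.Agent.H212R2.KLS (mu Bdd)
open Pool.Agent.TH594.KP (ev inner_ev inner_ev_ev swp swp_ev swp_apply GG GD Bs mem_Bs card_Bs_pos)

variable {ι δ β κ : Type} [Fintype ι] [Fintype δ] [Fintype β] [Fintype κ] [DecidableEq ι]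
  [DecidableEq δ] [DecidableEq β] [DecidableEq κ]

variable {b : ι → β} {Z : Finset β} {j : V κ →ₗᵢ[ℝ] V (ι × δ)}

/-- the product of `ρ` and of the density of the centres of mass -/
noncomputable def rp (b : ι → β) (Z : Finset β) (j : V κ →ₗᵢ[ℝ] V (ι × δ)) (r : ℝ) (ρ : V κ → ℝ)
    (x : V (ι × δ)) : ℝ := ρ (jt j x) * Ga (Sg δ Z) r fun c => ⟪ev b c.1, x⟫_ℝ

/-- invariance of a density on the configurations with fixed centres of mass under the exchange of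
particles of the same species -/
def InvJ (b : ι → β) (j : V κ →ₗᵢ[ℝ] V (ι × δ)) (ρ : V κ → ℝ) : Prop :=
  ∀ k l, b k = b l → ∀ y y' : V κ, j y' = swp k l (j y) → ρ y' = ρ y

variable {ρ : V κ → ℝ} {r : ℝ}

theorem inner_swp (k l : ι) (hkl : b k = b l) (c : β × δ) (x : V (ι × δ)) :
    ⟪ev b c, swp k l x⟫_ℝ = ⟪ev b c, x⟫_ℝ := by
  have h1 := (swp k l).inner_map_map (ev b c) x
  rw [swp_ev b c k l hkl] at h1
  exact h1

theorem jt_swp (hp : Par b Z j) (k l : ι) (hkl : b k = b l) (x : V (ι × δ)) :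
    j (jt j (swp k l x)) = swp k l (j (jt j x)) := by
  rw [hp.j_jt, hp.j_jt, map_sub, map_sum]
  congr 1
  refine Finset.sum_congr rfl fun c _ => ?_
  rw [map_smul, swp_ev b c.1 k l hkl, inner_swp k l hkl]

theorem Ga_meas (σ : Type) [Fintype σ] (r : ℝ) : Measurable (Ga σ r) := by
  unfold Ga
  refine measurable_const.mul (Finset.measurable_prod _ fun c _ => ?_)
  exact (ph_meas r).comp (measurable_pi_apply c)

theorem rp_meas (hm : Measurable ρ) : Measurable (rp b Z j r ρ) := by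
  unfold rp
  refine (hm.comp (jt j).continuous.measurable).mul ((Ga_meas _ r).comp ?_)
  rw [measurable_pi_iff]
  intro c
  have : Continuous fun x : V (ι × δ) => ⟪ev b c.1, x⟫_ℝ := by fun_prop
  exact this.measurable

theorem rp_gd (hp : Par b Z j) (h0 : ∀ x, 0 ≤ ρ x) (hm : Measurable ρ)
    (hl : ∀ x y : V κ, ∀ t : ℝ, 0 < t → t < 1 → ρ x ^ (1 - t) * ρ y ^ t ≤ ρ ((1 - t) • x + t • y))
    (hi : InvJ b j ρ) : GD (GG δ b) (rp b Z j r ρ) where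
  nonneg x := mul_nonneg (h0 _) (Ga_nonneg _ _ _)
  meas := rp_meas hm
  logc x y t ht0 ht1 := by
    unfold rp
    rw [Real.mul_rpow (h0 _) (Ga_nonneg _ _ _), Real.mul_rpow (h0 _) (Ga_nonneg _ _ _)]
    have h1 := hl (jt j x) (jt j y) t ht0 ht1
    have h2 := Ga_logc (Sg δ Z) r (fun c => ⟪ev b c.1, x⟫_ℝ) (fun c => ⟪ev b c.1, y⟫_ℝ) t ht0 ht1
    have e1 : jt j ((1 - t) • x + t • y) = (1 - t) • jt j x + t • jt j y := by
      rw [map_add, map_smul, map_smul]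
    have e2 : (fun c : Sg δ Z => ⟪ev b c.1, (1 - t) • x + t • y⟫_ℝ) =
        fun c : Sg δ Z => (1 - t) * ⟪ev b c.1, x⟫_ℝ + t * ⟪ev b c.1, y⟫_ℝ := by
      funext c
      rw [inner_add_right, inner_smul_right, inner_smul_right]
    rw [e1, e2]
    calc ρ (jt j x) ^ (1 - t) * (Ga (Sg δ Z) r fun c => ⟪ev b c.1, x⟫_ℝ) ^ (1 - t) *
          (ρ (jt j y) ^ t * (Ga (Sg δ Z) r fun c => ⟪ev b c.1, y⟫_ℝ) ^ t)
        = (ρ (jt j x) ^ (1 - t) * ρ (jt j y) ^ t) *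
          ((Ga (Sg δ Z) r fun c => ⟪ev b c.1, x⟫_ℝ) ^ (1 - t) *
          (Ga (Sg δ Z) r fun c => ⟪ev b c.1, y⟫_ℝ) ^ t) := by ring
      _ ≤ _ := mul_le_mul h1 h2 (mul_nonneg (Real.rpow_nonneg (Ga_nonneg _ _ _) _)
          (Real.rpow_nonneg (Ga_nonneg _ _ _) _)) (h0 _)
  inv g hg x := by
    obtain ⟨k, l, hkl, rfl⟩ := hg
    unfold rp
    have h1 : ρ (jt j (swp k l x)) = ρ (jt j x) := hi k l hkl _ _ (jt_swp hp k l hkl x)
    rw [h1]
    congr 2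
    funext c
    exact inner_swp k l hkl c.1 x

theorem map_jt (hp : Par b Z j) (hr : 0 < r) (h0 : ∀ x, 0 ≤ ρ x) (hm : Measurable ρ) :
    (mu (rp b Z j r ρ)).map (jt j) = mu ρ := by
  have hj : Measurable (jt j) := (jt j).continuous.measurable
  ext A hA
  rw [Measure.map_apply hj hA, mu, mu, withDensity_apply _ (hj hA), withDensity_apply _ hA,
    ← lintegral_indicator (hj hA), ← lintegral_indicator hA]
  have hF : Measurable ((jt j ⁻¹' A).indicator fun z => ENNReal.ofReal (rp b Z j r ρ z)) :=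
    (rp_meas hm).ennreal_ofReal.indicator (hj hA)
  rw [← hp.TT_mp.lintegral_comp hF]
  have hG : ∀ z : V κ × V (Sg δ Z), (jt j ⁻¹' A).indicator
      (fun z => ENNReal.ofReal (rp b Z j r ρ z)) (TT b Z j z) =
      A.indicator (fun x => ENNReal.ofReal (ρ x)) z.1 *
        ENNReal.ofReal (Ga (Sg δ Z) r fun c => z.2 c) := by
    intro z
    have e1 : rp b Z j r ρ (TT b Z j z) = ρ z.1 * Ga (Sg δ Z) r fun c => z.2 c := by
      unfold rp
      rw [hp.jt_TT]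
      congr 2
      funext c
      exact hp.ev_TT z c
    by_cases hz : z.1 ∈ A
    · rw [indicator_of_mem hz, indicator_of_mem, e1, ENNReal.ofReal_mul (h0 _)]
      rw [mem_preimage, hp.jt_TT]
      exact hz
    · rw [indicator_of_notMem hz, indicator_of_notMem, zero_mul]
      rw [mem_preimage, hp.jt_TT]
      exact hz
  simp only [hG]
  have h1 : Measurable fun z : V (Sg δ Z) => Ga (Sg δ Z) r fun c => z c := by
    refine (Ga_meas _ r).comp ?_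
    rw [measurable_pi_iff]
    intro c
    fun_prop
  have h2 := lintegral_prod_mul (μ := (volume : Measure (V κ)))
    (ν := (volume : Measure (V (Sg δ Z)))) (f := A.indicator fun x => ENNReal.ofReal (ρ x))
    (g := fun z : V (Sg δ Z) => ENNReal.ofReal (Ga (Sg δ Z) r fun c => z c))
    (hm.ennreal_ofReal.indicator hA).aemeasurable h1.ennreal_ofReal.aemeasurable
  rw [h2, Ga_int _ hr, mul_one]

theorem rp_supp {x : V (ι × δ)} (hx : rp b Z j r ρ x ≠ 0) (c : Sg δ Z) :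
    |⟪ev b c.1, x⟫_ℝ| ≤ r := by
  by_contra hc
  refine hx ?_
  unfold rp Ga
  have h1 : ph r ⟪ev b c.1, x⟫_ℝ = 0 := by
    unfold ph
    rw [if_neg hc]
  rw [Finset.prod_eq_zero (Finset.mem_univ c) h1, mul_zero, mul_zero]

theorem Par.decomp (hp : Par b Z j) (x : V (ι × δ)) :
    x = j (jt j x) + ∑ c : Sg δ Z, ⟪ev b c.1, x⟫_ℝ • ev b c.1 := by
  rw [hp.j_jt]
  simp

theorem norm_cm (hp : Par b Z j) (x : V (ι × δ)) (hx : ∀ c : Sg δ Z, |⟪ev b c.1, x⟫_ℝ| ≤ r) :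
    ‖x‖ ≤ ‖jt j x‖ + Fintype.card (Sg δ Z) * r := by
  have h1 := hp.decomp x
  conv_lhs => rw [h1]
  refine (norm_add_le _ _).trans ?_
  rw [j.norm_map]
  refine add_le_add le_rfl ((norm_sum_le _ _).trans ?_)
  have h2 : ∀ c : Sg δ Z, ‖⟪ev b c.1, x⟫_ℝ • ev b c.1‖ ≤ r := by
    intro c
    have h3 : ‖ev b c.1‖ = 1 := by
      have h4 := inner_ev_ev hp.sur c.1 c.1
      rw [if_pos rfl, real_inner_self_eq_norm_sq] at h4
      have h5 : 0 ≤ ‖ev b c.1‖ := norm_nonneg _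
      nlinarith [sq_nonneg (‖ev b c.1‖ - 1)]
    rw [norm_smul, h3, mul_one, Real.norm_eq_abs]
    exact hx c
  refine (Finset.sum_le_sum fun c _ => h2 c).trans (le_of_eq ?_)
  rw [Finset.sum_const, Finset.card_univ, nsmul_eq_mul]

theorem rp_bdd (hp : Par b Z j) (hb : Bdd ρ) : Bdd (rp b Z j r ρ) := by
  obtain ⟨R, hR⟩ := hb
  refine ⟨R + Fintype.card (Sg δ Z) * r, fun x hx => ?_⟩
  by_contra hc
  have h1 := norm_cm (r := r) hp x fun c => rp_supp hc c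
  have h2 : R < ‖jt j x‖ := by linarith
  refine hc ?_
  unfold rp
  rw [hR _ h2, zero_mul]

/-- the part of the norm in the directions of the fixed centres of mass -/
noncomputable def EZ (b : ι → β) (Z : Finset β) (x : V (ι × δ)) : ℝ :=
  ∑ c : Sg δ Z, ⟪ev b c.1, x⟫_ℝ ^ 2

theorem rp_mid (h0 : ∀ x, 0 ≤ ρ x)
    (hl : ∀ x y : V κ, ∀ t : ℝ, 0 < t → t < 1 → ρ x ^ (1 - t) * ρ y ^ t ≤ ρ ((1 - t) • x + t • y))
    (hr : 0 < r) (K : ℝ) (hK : r ^ 2 ≤ K) (x y : V (ι × δ)) :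
    rp b Z j r ρ x * rp b Z j r ρ y ≤ rp b Z j r ρ ((1 / 2 : ℝ) • (x + y)) ^ 2 *
      Real.exp (-(EZ b Z (x - y) / (4 * K))) := by
  unfold rp EZ
  have h1 : ρ (jt j x) * ρ (jt j y) ≤ (ρ ((1 / 2 : ℝ) • (jt j x + jt j y))) ^ 2 := by
    have h1 := hl (jt j x) (jt j y) (1 / 2) (by norm_num) (by norm_num)
    have e1 : (1 - (1 / 2 : ℝ)) = 1 / 2 := by norm_num
    rw [e1, ← smul_add, ← Real.sqrt_eq_rpow, ← Real.sqrt_eq_rpow, ← Real.sqrt_mul (h0 _)] at h1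
    have h2 := pow_le_pow_left₀ (Real.sqrt_nonneg _) h1 2
    rwa [Real.sq_sqrt (mul_nonneg (h0 _) (h0 _))] at h2
  have h2 := Ga_mid (Sg δ Z) hr K hK (fun c => ⟪ev b c.1, x⟫_ℝ) (fun c => ⟪ev b c.1, y⟫_ℝ)
  have e1 : jt j ((1 / 2 : ℝ) • (x + y)) = (1 / 2 : ℝ) • (jt j x + jt j y) := by
    rw [map_smul, map_add]
  have e2 : (fun c : Sg δ Z => ⟪ev b c.1, (1 / 2 : ℝ) • (x + y)⟫_ℝ) =
      fun c : Sg δ Z => (⟪ev b c.1, x⟫_ℝ + ⟪ev b c.1, y⟫_ℝ) / 2 := by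
    funext c
    rw [inner_smul_right, inner_add_right]
    ring
  have e3 : ∀ c : Sg δ Z, ⟪ev b c.1, x - y⟫_ℝ = ⟪ev b c.1, x⟫_ℝ - ⟪ev b c.1, y⟫_ℝ := fun c =>
    inner_sub_right _ _ _
  simp only [e3]
  rw [e1, e2]
  calc ρ (jt j x) * (Ga (Sg δ Z) r fun c => ⟪ev b c.1, x⟫_ℝ) *
        (ρ (jt j y) * Ga (Sg δ Z) r fun c => ⟪ev b c.1, y⟫_ℝ)
      = (ρ (jt j x) * ρ (jt j y)) * ((Ga (Sg δ Z) r fun c => ⟪ev b c.1, x⟫_ℝ) *
        Ga (Sg δ Z) r fun c => ⟪ev b c.1, y⟫_ℝ) := by ring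
    _ ≤ _ := mul_le_mul h1 h2 (mul_nonneg (Ga_nonneg _ _ _) (Ga_nonneg _ _ _)) (sq_nonneg _)
    _ = _ := by ring

theorem rp_shift (hp : Par b Z j) (c : Sg δ Z) (x : V (ι × δ)) (a : ℝ) :
    rp b Z j r ρ (x + a • ev b c.1) * ph r ⟪ev b c.1, x⟫_ℝ =
      rp b Z j r ρ x * ph r (⟪ev b c.1, x⟫_ℝ + a) := by
  unfold rp Ga
  have e1 : jt j (x + a • ev b c.1) = jt j x := by
    rw [map_add, map_smul, hp.jt_ev, smul_zero, add_zero]
  have e2 : ∀ c' : Sg δ Z, ⟪ev b c'.1, x + a • ev b c.1⟫_ℝ =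
      if c' = c then ⟪ev b c.1, x⟫_ℝ + a else ⟪ev b c'.1, x⟫_ℝ := by
    intro c'
    rw [inner_add_right, real_inner_smul_right, inner_ev_ev hp.sur]
    by_cases h : c' = c
    · subst h
      simp
    · rw [if_neg h, if_neg (fun h2 => h (Subtype.ext h2)), mul_zero, add_zero]
  simp only [e2]
  rw [e1, ← Finset.mul_prod_erase Finset.univ _ (Finset.mem_univ c),
    ← Finset.mul_prod_erase Finset.univ (fun c' : Sg δ Z => ph r ⟪ev b c'.1, x⟫_ℝ)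
      (Finset.mem_univ c), if_pos rfl]
  have e3 : ∏ c' ∈ Finset.univ.erase c, ph r (if c' = c then ⟪ev b c.1, x⟫_ℝ + a
      else ⟪ev b c'.1, x⟫_ℝ) = ∏ c' ∈ Finset.univ.erase c, ph r ⟪ev b c'.1, x⟫_ℝ := by
    refine Finset.prod_congr rfl fun c' hc' => ?_
    rw [if_neg (Finset.ne_of_mem_erase hc')]
  rw [e3]
  ring

/-! ### second moments -/

theorem rp_int (hp : Par b Z j) (hr : 0 < r) (h0 : ∀ x, 0 ≤ ρ x) (hm : Measurable ρ)
    (F : V κ → ℝ) (hF : Continuous F) :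
    ∫ x, F (jt j x) ∂(mu (rp b Z j r ρ)) = ∫ y, F y ∂(mu ρ) := by
  rw [← map_jt hp hr h0 hm]
  exact (integral_map (jt j).continuous.measurable.aemeasurable hF.aestronglyMeasurable).symm

theorem norm_single {κ' : Type} [Fintype κ'] [DecidableEq κ'] (p : κ') :
    ‖(EuclideanSpace.single p (1 : ℝ) : V κ')‖ = 1 := by
  simp

theorem cm_coord (hp : Par b Z j) (hr : 0 ≤ r) (x : V (ι × δ))
    (hx : ∀ c : Sg δ Z, |⟪ev b c.1, x⟫_ℝ| ≤ r) (p : ι × δ) :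
    |(∑ c : Sg δ Z, ⟪ev b c.1, x⟫_ℝ • ev b c.1 : V (ι × δ)) p| ≤ r := by
  have h1 : (∑ c : Sg δ Z, ⟪ev b c.1, x⟫_ℝ • ev b c.1 : V (ι × δ)) p =
      ∑ c : Sg δ Z, ⟪ev b c.1, x⟫_ℝ * (ev b c.1) p := by
    rw [WithLp.ofLp_sum, Finset.sum_apply]
    rfl
  rw [h1]
  have h2 : ∀ c : Sg δ Z, (ev b c.1) p =
      if b p.1 = c.1.1 ∧ p.2 = c.1.2 then 1 / Real.sqrt (Bs b c.1.1).card else 0 := fun c => rfl
  by_cases hz : b p.1 ∈ Z
  · rw [Finset.sum_eq_single (⟨(b p.1, p.2), hz⟩ : Sg δ Z)]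
    · rw [h2, if_pos ⟨rfl, rfl⟩, abs_mul]
      have h3 : (1 : ℝ) ≤ (Bs b (b p.1)).card := by
        have : 0 < (Bs b (b p.1)).card := Finset.card_pos.2 ⟨p.1, (mem_Bs b _ _).2 rfl⟩
        exact_mod_cast this
      have h4 : 1 ≤ Real.sqrt (Bs b (b p.1)).card := by
        rw [← Real.sqrt_one]
        exact Real.sqrt_le_sqrt h3
      have h5 : |1 / Real.sqrt ((Bs b (b p.1)).card : ℝ)| ≤ 1 := by
        rw [abs_of_nonneg (by positivity), div_le_one (by linarith)]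
        exact h4
      have h6 := hx ⟨(b p.1, p.2), hz⟩
      calc |⟪ev b (b p.1, p.2), x⟫_ℝ| * |1 / Real.sqrt ((Bs b (b p.1)).card : ℝ)| ≤ r * 1 :=
            mul_le_mul h6 h5 (abs_nonneg _) hr
        _ = r := mul_one r
    · intro c _ hc
      rw [h2, if_neg, mul_zero]
      rintro ⟨h3, h4⟩
      exact hc (Subtype.ext (Prod.ext h3.symm h4.symm))
    · intro h
      exact absurd (Finset.mem_univ _) h
  · rw [Finset.sum_eq_zero, abs_zero]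
    · exact hr
    intro c _
    rw [h2, if_neg, mul_zero]
    rintro ⟨h3, h4⟩
    exact hz (by rw [h3]; exact c.2)

theorem ae_supp {κ' : Type} [Fintype κ'] {ρ' : V κ' → ℝ} (hm : Measurable ρ') :
    ∀ᵐ x ∂(mu ρ'), ρ' x ≠ 0 := by
  have h1 : MeasurableSet {x : V κ' | ¬ ρ' x ≠ 0} := by
    have : {x : V κ' | ¬ ρ' x ≠ 0} = ρ' ⁻¹' {0} := by
      ext x
      simp
    rw [this]
    exact hm (measurableSet_singleton 0)
  rw [ae_iff]
  unfold mu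
  rw [withDensity_apply _ h1]
  refine (setLIntegral_congr_fun h1 (g := fun _ => 0) fun x hx => ?_).trans (by simp)
  have h2 : ρ' x = 0 := by
    by_contra hc
    exact hx hc
  simp only
  rw [h2, ENNReal.ofReal_zero]

/-- second moments of the coordinates -/
theorem coord_le (hp : Par b Z j) (hr : 0 < r) (h0 : ∀ x, 0 ≤ ρ x) (hm : Measurable ρ)
    (hb : Bdd ρ) (h1 : mu ρ univ = 1) (h1' : mu (rp b Z j r ρ) univ = 1)
    (hmom : ∀ θ : V κ, ∫ x, ⟪θ, x⟫_ℝ ^ 2 ∂(mu ρ) ≤ r ^ 2 * ‖θ‖ ^ 2) (p : ι × δ) :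
    ∫ x, x p ^ 2 ∂(mu (rp b Z j r ρ)) ≤ (2 * r) ^ 2 := by
  have hprob : IsProbabilityMeasure (mu (rp b Z j r ρ)) := ⟨h1'⟩
  obtain ⟨θ, hθ⟩ : ∃ θ : V κ, θ = jt j (EuclideanSpace.single p 1) := ⟨_, rfl⟩
  have hθn : ‖θ‖ ≤ 1 := by
    rw [hθ]
    refine (norm_jt j _).trans ?_
    rw [norm_single]
  have h2 := rp_int (F := fun y => ⟪θ, y⟫_ℝ ^ 2) hp hr h0 hm (by fun_prop)
  have hpt : ∀ᵐ x ∂(mu (rp b Z j r ρ)), x p ^ 2 ≤ 2 * ⟪θ, jt j x⟫_ℝ ^ 2 + 2 * r ^ 2 := by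
    filter_upwards [ae_supp (rp_meas (b := b) (Z := Z) (j := j) (r := r) hm)] with x hx
    have h3 : x p = ⟪θ, jt j x⟫_ℝ + (∑ c : Sg δ Z, ⟪ev b c.1, x⟫_ℝ • ev b c.1 : V (ι × δ)) p := by
      rw [hθ, inner_jt, EuclideanSpace.inner_single_left]
      have h4 := congrArg (fun z : V (ι × δ) => z p) (hp.decomp x)
      simp only [PiLp.add_apply] at h4
      rw [h4]
      simp
    have h4 := cm_coord hp hr.le x (fun c => rp_supp hx c) p
    have h5 := abs_le.1 h4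
    rw [h3]
    have h6 : (∑ c : Sg δ Z, ⟪ev b c.1, x⟫_ℝ • ev b c.1 : V (ι × δ)) p ^ 2 ≤ r ^ 2 := by
      rw [← sq_abs]
      exact pow_le_pow_left₀ (abs_nonneg _) h4 2
    nlinarith [sq_nonneg (⟪θ, jt j x⟫_ℝ -
      (∑ c : Sg δ Z, ⟪ev b c.1, x⟫_ℝ • ev b c.1 : V (ι × δ)) p)]
  obtain ⟨R, hR⟩ := rp_bdd (r := r) hp hb
  have hae := Pool.Agent.TH610.RB.ae_bdd (rp b Z j r ρ) R hR
  have hi : Integrable (fun x : V (ι × δ) => 2 * ⟪θ, jt j x⟫_ℝ ^ 2 + 2 * r ^ 2)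
      (mu (rp b Z j r ρ)) := by
    refine Integrable.of_bound (C := 2 * (‖θ‖ * R) ^ 2 + 2 * r ^ 2) (by fun_prop) ?_
    filter_upwards [hae] with x hx
    rw [Real.norm_eq_abs, abs_of_nonneg (by positivity)]
    have h3 : |⟪θ, jt j x⟫_ℝ| ≤ ‖θ‖ * R := (abs_real_inner_le_norm _ _).trans
      (mul_le_mul_of_nonneg_left ((norm_jt j x).trans hx) (norm_nonneg _))
    have h4 : ⟪θ, jt j x⟫_ℝ ^ 2 ≤ (‖θ‖ * R) ^ 2 := by
      rw [← sq_abs]
      exact pow_le_pow_left₀ (abs_nonneg _) h3 2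
    linarith
  have hi2 : Integrable (fun x : V (ι × δ) => x p ^ 2) (mu (rp b Z j r ρ)) := by
    have hc : Measurable (fun x : V (ι × δ) => x p) := by fun_prop
    refine Integrable.of_bound (hc.pow_const 2).aestronglyMeasurable (R ^ 2) ?_
    filter_upwards [hae] with x hx
    rw [Real.norm_eq_abs, abs_of_nonneg (sq_nonneg _)]
    have h1 : |x p| ≤ ‖x‖ := by
      have h2 := PiLp.norm_apply_le x p
      rwa [Real.norm_eq_abs] at h2
    calc x p ^ 2 = |x p| ^ 2 := (sq_abs _).symm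
      _ ≤ R ^ 2 := pow_le_pow_left₀ (abs_nonneg _) (h1.trans hx) 2
  refine (integral_mono_ae hi2 hi hpt).trans ?_
  have hi3 : Integrable (fun x : V (ι × δ) => 2 * ⟪θ, jt j x⟫_ℝ ^ 2) (mu (rp b Z j r ρ)) := by
    have h3 := hi.sub (integrable_const (2 * r ^ 2))
    refine h3.congr (Filter.Eventually.of_forall fun x => ?_)
    show 2 * ⟪θ, jt j x⟫_ℝ ^ 2 + 2 * r ^ 2 - 2 * r ^ 2 = _
    ring
  rw [integral_add hi3 (integrable_const _), integral_const_mul, h2, integral_const]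
  simp only [probReal_univ, smul_eq_mul, one_mul]
  have h3 := hmom θ
  have h4 : ‖θ‖ ^ 2 ≤ 1 := by
    calc ‖θ‖ ^ 2 ≤ 1 ^ 2 := pow_le_pow_left₀ (norm_nonneg _) hθn 2
      _ = 1 := one_pow 2
  have h5 : r ^ 2 * ‖θ‖ ^ 2 ≤ r ^ 2 * 1 := mul_le_mul_of_nonneg_left h4 (sq_nonneg _)
  nlinarith

end Pool.Agent.K6.H81.PS
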