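import Pool.Agent.K6.H81.PS.Cr
import Pool.Agent.TH594.KP.Main

/-!
# From bounded support to all densities
-/

set_option autoImplicit false
set_option linter.unusedSectionVars false
set_option linter.unusedVariables false

namespace Pool.Agent.K6.H81.PS

open MeasureTheory Set
open scoped ENNReal InnerProductSpace
open Pool.Agent.H212R2.KLS (mu Bdd)
open Pool.Agent.TH594.KP (ev inner_ev inner_ev_ev swp swp_ev swp_apply GG GD Bs mem_Bs card_Bs_pos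
  SC full)

variable {ι δ β κ : Type} [Fintype ι] [Fintype δ] [Fintype β] [Fintype κ] [DecidableEq ι]
  [DecidableEq δ] [DecidableEq β] [DecidableEq κ]

/-- the exchanges of two particles of the same species, on the configurations with fixed centres of
mass -/
def GW (b : ι → β) (j : V κ →ₗᵢ[ℝ] V (ι × δ)) : Set (V κ ≃ₗᵢ[ℝ] V κ) :=
  {γ | ∃ k l, b k = b l ∧ ∀ y, j (γ y) = swp k l (j y)}

variable {b : ι → β} {Z : Finset β} {j : V κ →ₗᵢ[ℝ] V (ι × δ)} {ρ : V κ → ℝ}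

theorem ex_gam (hp : Par b Z j) (k l : ι) (hkl : b k = b l) :
    ∃ γ : V κ ≃ₗᵢ[ℝ] V κ, ∀ y, j (γ y) = swp k l (j y) := by
  obtain ⟨L, hL⟩ : ∃ L : V κ →ₗ[ℝ] V κ, ∀ y, L y = jt j (swp k l (j y)) :=
    ⟨(jt j).toLinearMap ∘ₗ (swp k l).toLinearEquiv.toLinearMap ∘ₗ j.toLinearMap, fun y => rfl⟩
  have hj : ∀ y, j (L y) = swp k l (j y) := by
    intro y
    rw [hL, jt_swp hp k l hkl, jt_j]
  have hn : ∀ y, ‖L y‖ = ‖y‖ := by
    intro y
    rw [← j.norm_map, hj, (swp k l).norm_map, j.norm_map]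
  exact ⟨(⟨L, hn⟩ : V κ →ₗᵢ[ℝ] V κ).toLinearIsometryEquiv rfl, fun y => hj y⟩

theorem invj_of (hp : Par b Z j) (h : ∀ g ∈ GW b j, ∀ x, ρ (g x) = ρ x) : InvJ b j ρ := by
  intro k l hkl y y' hy
  obtain ⟨γ, hγ⟩ := ex_gam hp k l hkl
  have h1 : y' = γ y := j.injective (by rw [hy, hγ])
  rw [h1]
  exact h γ ⟨k, l, hkl, hγ⟩ y

/-- the bound for bounded support, second moments -/
theorem sc : ∃ C : ℝ, 0 < C ∧ ∀ {n : ℕ} {δ β κ : Type} [Fintype δ] [DecidableEq δ]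
    [Fintype β] [DecidableEq β] [Fintype κ] [DecidableEq κ] {b : Fin n → β} {Z : Finset β}
    {j : V κ →ₗᵢ[ℝ] V (Fin n × δ)} (_ : Par b Z j)
    (_ : 0 < Fintype.card δ) {T : ℝ} (_ : 0 ≤ T)
    (_ : ∑ c ∈ Z, Real.exp (-(T * (Bs b c).card)) ≤ 1),
    SC (GW b j) (C * fac (Fintype.card δ) (q0 Z) T) := by
  obtain ⟨C, hC, H⟩ := core
  refine ⟨C, hC, ?_⟩
  intro n δ β κ _ _ _ _ _ _ b Z j hp hδ T hT hTs ρ hρ hb h1 s hs hmom f hf hf1
  have hsq : Real.sqrt s ^ 2 = s := Real.sq_sqrt hs.le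
  have h : As b Z j ρ (Real.sqrt s) := ⟨hp, Real.sqrt_pos.2 hs, hρ.nonneg, hρ.meas, hρ.logc,
    invj_of hp hρ.inv, hb, h1, fun θ => by rw [hsq]; exact hmom θ⟩
  have h2 := H h hδ hT hTs f hf hf1
  rw [hsq] at h2
  exact h2

theorem fac_pos {d : ℕ} (hd : 1 ≤ d) (q : ℕ) {T : ℝ} (hT : 0 ≤ T) : 0 < fac d q T := by
  unfold fac
  have h1 : (1 : ℝ) ≤ d := by exact_mod_cast hd
  have h2 : (0 : ℝ) ≤ q := Nat.cast_nonneg _
  have h3 := Real.log_nonneg (by linarith : (1 : ℝ) ≤ 1 + q)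
  positivity

end Pool.Agent.K6.H81.PS
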