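import Pool.Agent.K6.H81.PS.Mg
import Pool.Agent.TH594.KP.Core

/-!
# The local Poincare inequality and the tails

After `Pool.Agent.TH594.KP.Core` (starting files).
-/

set_option autoImplicit false
set_option linter.unusedSectionVars false
set_option linter.unusedVariables false

namespace Pool.Agent.K6.H81.PS

open MeasureTheory Set
open scoped ENNReal InnerProductSpace
open Pool.Agent.H212R2.KLS (mu Bdd)
open Pool.Agent.H888R2.KT (LC St tw untiltq)
open Pool.Agent.H888R2.KT.G2x (mu_indicator integral_mu_mul mu_mono intg)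
open Pool.Agent.TH594.KP (ev inner_ev inner_ev_ev swp swp_ev swp_apply GG GD Bs mem_Bs card_Bs_pos
  ed sum_ed lev lev_closed lev_convex gd_lev gd_tilt tilt_st tw_cont cH cH_pos hardy sym ns P)

theorem gd_one {κ : Type} [Fintype κ] : GD (∅ : Set (V κ ≃ₗᵢ[ℝ] V κ)) (fun _ => (1 : ℝ)) where
  nonneg x := zero_le_one
  meas := measurable_const
  logc x y t ht0 ht1 := by
    rw [Real.one_rpow, Real.one_rpow, one_mul]
  inv g hg := absurd hg (notMem_empty g)

variable {n : ℕ} {δ β : Type} [Fintype δ] [DecidableEq δ] [Fintype β] [DecidableEq β]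

/-- strong log-concavity in all directions of the centres of mass -/
theorem st_all {b : Fin n → β} {Z : Finset β} {p : ℕ} (e' : Fin p → V (Fin n × δ))
    (hsum : ∀ v : V (Fin n × δ), ∑ c : β × δ, ⟪ev b c, v⟫_ℝ ^ 2 =
      EZ b Z v + ∑ j, ⟪e' j, v⟫_ℝ ^ 2)
    (ρ : V (Fin n × δ) → ℝ) (h0 : ∀ x, 0 ≤ ρ x) (U : Set (V (Fin n × δ))) (hU : Convex ℝ U)
    (K : ℝ) (hK : 0 < K)
    (hmid : ∀ x y, ρ x * ρ y ≤ ρ ((1 / 2 : ℝ) • (x + y)) ^ 2 *
      Real.exp (-(EZ b Z (x - y) / (4 * K)))) (τ : V (Fin p)) :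
    St (ed δ b) K (fun x => U.indicator ρ x * tw e' K τ x) := by
  intro x y
  show U.indicator ρ x * tw e' K τ x * (U.indicator ρ y * tw e' K τ y) ≤
    (U.indicator ρ ((1 / 2 : ℝ) • (x + y)) * tw e' K τ ((1 / 2 : ℝ) • (x + y))) ^ 2 *
      Real.exp (-((∑ j, ⟪ed δ b j, x - y⟫_ℝ ^ 2) / (4 * K)))
  have hS : ∑ j, ⟪ed δ b j, x - y⟫_ℝ ^ 2 = EZ b Z (x - y) + ∑ j, ⟪e' j, x - y⟫_ℝ ^ 2 := by
    rw [sum_ed b fun e => ⟪e, x - y⟫_ℝ ^ 2, hsum]
  rw [hS]
  have h1 := tilt_st gd_one e' K hK τ x y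
  simp only [one_mul] at h1
  have hn : ∀ z, 0 ≤ U.indicator ρ z := fun z => indicator_nonneg (fun z _ => h0 z) z
  have ht : ∀ z, 0 ≤ tw e' K τ z := fun z => (Real.exp_pos _).le
  have e : Real.exp (-((EZ b Z (x - y) + ∑ j, ⟪e' j, x - y⟫_ℝ ^ 2) / (4 * K))) =
      Real.exp (-(EZ b Z (x - y) / (4 * K))) *
        Real.exp (-((∑ j, ⟪e' j, x - y⟫_ℝ ^ 2) / (4 * K))) := by
    rw [← Real.exp_add]
    congr 1
    ring
  rw [e]
  by_cases hx : x ∈ U
  · by_cases hy : y ∈ U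
    · have hz : (1 / 2 : ℝ) • (x + y) ∈ U := by
        rw [smul_add]
        exact hU hx hy (by norm_num) (by norm_num) (by norm_num)
      rw [indicator_of_mem hx, indicator_of_mem hy, indicator_of_mem hz]
      calc ρ x * tw e' K τ x * (ρ y * tw e' K τ y) = (ρ x * ρ y) * (tw e' K τ x * tw e' K τ y) := by
            ring
        _ ≤ (ρ ((1 / 2 : ℝ) • (x + y)) ^ 2 * Real.exp (-(EZ b Z (x - y) / (4 * K)))) *
            ((tw e' K τ ((1 / 2 : ℝ) • (x + y))) ^ 2 *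
              Real.exp (-((∑ j, ⟪e' j, x - y⟫_ℝ ^ 2) / (4 * K)))) :=
          mul_le_mul (hmid x y) h1 (mul_nonneg (ht x) (ht y)) (by positivity)
        _ = _ := by ring
    · rw [indicator_of_notMem hy, zero_mul, mul_zero]
      positivity
  · rw [indicator_of_notMem hx, zero_mul, zero_mul]
    positivity

/-- local Poincare inequality -/
theorem loc {C₁ : ℝ} (huntilt : ∀ {κ : Type} [Fintype κ] {q : ℕ}
      (ρ : EuclideanSpace ℝ κ → ℝ), LC ρ →
      ∀ e : Fin q → EuclideanSpace ℝ κ, Orthonormal ℝ e → ∀ K : ℝ, 0 < K →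
      (∀ j, ∫ x, ⟪e j, x⟫_ℝ ^ 2 ∂(mu ρ) ≤ K * (mu ρ univ).toReal) →
      (∀ (τ : EuclideanSpace ℝ (Fin q)) (f : EuclideanSpace ℝ κ → ℝ), ContDiff ℝ 1 f →
        ∃ c : ℝ, ∫ x, (f x - c) ^ 2 * tw e K τ x ∂(mu ρ) ≤
          5 * K * ∫ x, ‖fderiv ℝ f x‖ ^ 2 * tw e K τ x ∂(mu ρ)) →
      ∀ f : EuclideanSpace ℝ κ → ℝ, ContDiff ℝ 1 f →
      ∃ c : ℝ, ∫ x, (f x - c) ^ 2 ∂(mu ρ) ≤
        C₁ * (q + 1) * K * ∫ x, ‖fderiv ℝ f x‖ ^ 2 ∂(mu ρ))
    {b : Fin n → β} (hb : Function.Surjective b) {Z : Finset β} (ρ : V (Fin n × δ) → ℝ)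
    (hρ : GD (GG δ b) ρ) (hbd : Bdd ρ) (h1 : mu ρ univ = 1)
    (hball : ∃ R, (mu ρ) (Metric.closedBall 0 R)ᶜ = 0)
    {p : ℕ} (e' : Fin p → V (Fin n × δ)) (hon : Orthonormal ℝ e')
    (hfix : ∀ g ∈ GG δ b, ∀ j, g (e' j) = e' j)
    (hsum : ∀ v : V (Fin n × δ), ∑ c : β × δ, ⟪ev b c, v⟫_ℝ ^ 2 =
      EZ b Z v + ∑ j, ⟪e' j, v⟫_ℝ ^ 2)
    (s : ℝ) (hs : 0 < s)
    (hmid : ∀ K, s ≤ K → ∀ x y, ρ x * ρ y ≤ ρ ((1 / 2 : ℝ) • (x + y)) ^ 2 *
      Real.exp (-(EZ b Z (x - y) / (4 * K))))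
    (hmom : ∀ j, ∫ x, ⟪e' j, x⟫_ℝ ^ 2 ∂(mu ρ) ≤ s) (a : ℝ)
    (ha : 0 < a) (K : ℝ) (hK : K = cH * (Fintype.card δ + 1) ^ 2 * a ^ 2 + 2 * s)
    (hhalf : 1 / 2 ≤ (mu ρ (lev b a)).toReal)
    (f : V (Fin n × δ) → ℝ) (hf : ContDiff ℝ 1 f) :
    ∃ c : ℝ, ∫ x in lev b a, (f x - c) ^ 2 ∂(mu ρ) ≤
      C₁ * (p + 1) * K * ∫ x in lev b a, ‖fderiv ℝ f x‖ ^ 2 ∂(mu ρ) := by
  have hprob : IsProbabilityMeasure (mu ρ) := ⟨h1⟩
  obtain ⟨L, hL⟩ : ∃ L : ℝ, L = cH * (Fintype.card δ + 1) ^ 2 * a ^ 2 := ⟨_, rfl⟩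
  have hcH := cH_pos
  have hL0 : 0 < L := by rw [hL]; positivity
  have hK0 : 0 < K := by rw [hK]; positivity
  have hLK : L ≤ K := by rw [hK, hL]; linarith
  have hsK : s ≤ K := by rw [hK, ← hL]; linarith
  obtain ⟨U, hU⟩ : ∃ U : Set (V (Fin n × δ)), U = lev b a := ⟨_, rfl⟩
  rw [← hU] at hhalf ⊢
  have hUm : MeasurableSet U := by
    rw [hU]
    exact (lev_closed b a).measurableSet
  have hUc : Convex ℝ U := by
    rw [hU]
    exact lev_convex b a
  have hD : GD (GG δ b) (U.indicator ρ) := by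
    rw [hU]
    exact gd_lev hρ a
  have hres : mu (U.indicator ρ) = (mu ρ).restrict U := mu_indicator ρ U hUm
  have hle : ∀ x, U.indicator ρ x ≤ ρ x := fun x => Set.indicator_le_self' (fun _ _ => hρ.nonneg _) x
  have hbU : Bdd (U.indicator ρ) := by
    obtain ⟨R, hR⟩ := hbd
    refine ⟨R, fun x hx => le_antisymm ?_ (hD.nonneg x)⟩
    rw [← hR x hx]
    exact hle x
  have hfinU : mu (U.indicator ρ) univ ≠ ⊤ := by
    have := (mu_mono ρ (U.indicator ρ) hle univ).trans_eq h1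
    exact ne_top_of_le_ne_top ENNReal.one_ne_top this
  have hneU : mu (U.indicator ρ) ≠ 0 := by
    intro h0
    rw [hres] at h0
    have h2 : mu ρ U = 0 := by
      rw [← Measure.restrict_apply_univ, h0]
      simp
    rw [h2] at hhalf
    norm_num at hhalf
  have hLC : LC (U.indicator ρ) := ⟨hD.nonneg, hD.meas, hD.logc, hbU, hfinU, hneU⟩
  obtain ⟨c, hc⟩ := huntilt (U.indicator ρ) hLC e' hon
    K hK0 (by
      intro j
      rw [hres, Measure.restrict_apply_univ]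
      have h2 : ∫ x in U, ⟪e' j, x⟫_ℝ ^ 2 ∂(mu ρ) ≤ ∫ x, ⟪e' j, x⟫_ℝ ^ 2 ∂(mu ρ) :=
        setIntegral_le_integral (intg (mu ρ) hball _ (by fun_prop))
          (ae_of_all _ fun x => by positivity)
      have h3 := hmom j
      have h4 : 2 * s ≤ K := by
        rw [hK, ← hL]
        linarith
      have h5 : s ≤ K * (mu ρ U).toReal := by
        have h6 : K * (1 / 2) ≤ K * (mu ρ U).toReal := mul_le_mul_of_nonneg_left hhalf hK0.le
        linarith
      show ∫ x in U, ⟪e' j, x⟫_ℝ ^ 2 ∂(mu ρ) ≤ K * (mu ρ U).toReal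
      linarith)
    (by
      intro τ g hg
      have hD' : GD (GG δ b) (fun x => U.indicator ρ x * tw e' K τ x) :=
        gd_tilt hD e' hfix K hK0 τ
      have hT' : St (ed δ b) K (fun x => U.indicator ρ x * tw e' K τ x) :=
        st_all e' hsum ρ hρ.nonneg U hUc K hK0 (hmid K hsK) τ
      have hw0 : ∀ x : V (Fin n × δ), 0 ≤ tw e' K τ x := fun x => (Real.exp_pos _).le
      have hwm : Measurable fun x : V (Fin n × δ) => tw e' K τ x := (tw_cont _ K τ).measurable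
      have hw1 : ∀ x : V (Fin n × δ), tw e' K τ x ≤ 1 := fun x => by
        unfold tw
        rw [Real.exp_le_one_iff, neg_nonpos]
        positivity
      have hle' : ∀ x, U.indicator ρ x * tw e' K τ x ≤ ρ x :=
        fun x => (mul_le_of_le_one_right (hD.nonneg x) (hw1 x)).trans (hle x)
      have hb' : Bdd (fun x => U.indicator ρ x * tw e' K τ x) := by
        obtain ⟨R, hR⟩ := hbU
        exact ⟨R, fun x hx => by simp only [hR x hx, zero_mul]⟩
      have hfin' : mu (fun x => U.indicator ρ x * tw e' K τ x) univ ≠ ⊤ := by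
        have := (mu_mono ρ _ hle' univ).trans_eq h1
        exact ne_top_of_le_ne_top ENNReal.one_ne_top this
      have hne' : mu (fun x => U.indicator ρ x * tw e' K τ x) ≠ 0 := by
        intro h0
        refine hneU ?_
        have h2 : (mu (fun x => U.indicator ρ x * tw e' K τ x)) univ = 0 := by
          rw [h0]; rfl
        rw [mu, withDensity_apply _ MeasurableSet.univ, Measure.restrict_univ,
          lintegral_eq_zero_iff (hD'.meas.ennreal_ofReal)] at h2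
        rw [mu]
        have h3 : (fun x => ENNReal.ofReal (U.indicator ρ x)) =ᵐ[volume] 0 := by
          filter_upwards [h2] with x hx
          have hx' : ENNReal.ofReal (U.indicator ρ x * tw e' K τ x) = 0 := hx
          rw [ENNReal.ofReal_eq_zero] at hx'
          show ENNReal.ofReal (U.indicator ρ x) = 0
          rw [ENNReal.ofReal_eq_zero]
          by_contra hc
          rw [not_le] at hc
          have : 0 < U.indicator ρ x * tw e' K τ x :=
            mul_pos hc (Real.exp_pos _)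
          linarith
        exact (withDensity_congr_ae h3).trans (by simp)
      have hLC' : LC (fun x => U.indicator ρ x * tw e' K τ x) :=
        ⟨hD'.nonneg, hD'.meas, hD'.logc, hb', hfin', hne'⟩
      have hsupp : ∀ x, U.indicator ρ x * tw e' K τ x ≠ 0 → x ∈ lev b a := by
        intro x hx
        by_contra hc
        refine hx ?_
        have : x ∉ U := by rw [hU]; exact hc
        rw [Set.indicator_of_notMem this, zero_mul]
      have hodd : ∀ (k l : Fin n) (f : V (Fin n × δ) → ℝ), k ≠ l → b k = b l → ContDiff ℝ 1 f →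
          (∀ x, f (swp k l x) = - f x) → ∫ x, f x ^ 2 ∂(mu (fun x => U.indicator ρ x *
            tw e' K τ x)) ≤
          L * ∫ x, ‖fderiv ℝ f x‖ ^ 2 ∂(mu (fun x => U.indicator ρ x *
            tw e' K τ x)) := by
        intro k l f hkl hbkl hf h
        rw [hL]
        exact hardy hD' hLC' a ha k l hkl hbkl (fun x hx => hsupp x hx (b k)) f hf h
      obtain ⟨c, hc⟩ := Pool.Agent.TH594.KP.Seq.seq hD' hLC' (4 * K) (by positivity)
        (fun k l f hkl hbkl hf h => (hodd k l f hkl hbkl hf h).trans (mul_le_mul_of_nonneg_right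
          (by linarith) (integral_nonneg fun x => by positivity)))
        (fun u hu hu' => sym hb hD' hLC' L hL0 hodd K hLK hT' u hu hu') g hg
      rw [integral_mu_mul _ _ _ hD.nonneg hD.meas hw0 hwm,
        integral_mu_mul _ _ _ hD.nonneg hD.meas hw0 hwm] at hc
      refine ⟨c, hc.trans (mul_le_mul_of_nonneg_right (by linarith) ?_)⟩
      exact integral_nonneg fun x => mul_nonneg (by positivity) (hw0 x))
    f hf
  rw [hres] at hc
  exact ⟨c, hc⟩

end Pool.Agent.K6.H81.PS
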