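import Pool.Agent.TH610.RB.Tail

/-!
# Log-concave densities on `ℝ^κ` invariant under permutations of the coordinates, with a
centre of mass of a given law

The density is a product of a function of the part of the vector with sum zero and of a
function `φ` of the component in the direction `(1, …, 1)`.
-/

set_option autoImplicit false

namespace Pool.Agent.K6.H81.PS

open MeasureTheory Set
open scoped ENNReal InnerProductSpace
open Pool.Agent.H212R2.KLS (mu Bdd)

/-- `ℝ^κ` -/
abbrev V (κ : Type) : Type := EuclideanSpace ℝ κ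

section major

variable {κ : Type} [Fintype κ]

/-- the mean of the coordinates -/
noncomputable def av (x : V κ) : ℝ := (∑ i, x i) / Fintype.card κ

/-- the vector with equal coordinates -/
noncomputable def cst (a : ℝ) : V κ := WithLp.toLp 2 fun _ => a

omit [Fintype κ] in
@[simp] theorem cst_apply (a : ℝ) (i : κ) : (cst a : V κ) i = a := rfl

/-- the part with sum zero -/
noncomputable def ct (x : V κ) : V κ := x - cst (av x)

theorem ct_apply (x : V κ) (i : κ) : ct x i = x i - av x := by
  unfold ct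
  simp

theorem av_add (x y : V κ) : av (x + y) = av x + av y := by
  unfold av
  rw [← add_div, ← Finset.sum_add_distrib]
  rfl

theorem av_smul (c : ℝ) (x : V κ) : av (c • x) = c * av x := by
  unfold av
  rw [← mul_div_assoc, Finset.mul_sum]
  rfl

theorem av_cst [Nonempty κ] (a : ℝ) : av (cst a : V κ) = a := by
  unfold av
  simp only [cst_apply, Finset.sum_const, Finset.card_univ, nsmul_eq_mul]
  have : (Fintype.card κ : ℝ) ≠ 0 := by
    exact_mod_cast Fintype.card_ne_zero
  field_simp

theorem sum_ct [Nonempty κ] (x : V κ) : ∑ i, ct x i = 0 := by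
  simp only [ct_apply]
  rw [Finset.sum_sub_distrib, Finset.sum_const, Finset.card_univ, nsmul_eq_mul]
  unfold av
  have : (Fintype.card κ : ℝ) ≠ 0 := by
    exact_mod_cast Fintype.card_ne_zero
  field_simp
  ring

/-- product of a function of the part with sum zero and of `φ`; the density is log-concave and
invariant under permutations -/
structure HD (φ : ℝ → ℝ) (m : V κ → ℝ) : Prop where
  nonneg : ∀ x, 0 ≤ m x
  meas : Measurable m
  logc : ∀ x y : V κ, ∀ t : ℝ, 0 < t → t < 1 → m x ^ (1 - t) * m y ^ t ≤ m ((1 - t) • x + t • y)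
  inv : ∀ σ : Equiv.Perm κ, ∀ x y : V κ, (∀ i, y i = x (σ i)) → m y = m x
  prod : ∀ x : V κ, ∀ a : ℝ, m (x + cst a) * φ (Real.sqrt (Fintype.card κ) * av x) =
    m x * φ (Real.sqrt (Fintype.card κ) * (av x + a))

variable {φ : ℝ → ℝ} {m : V κ → ℝ}

theorem HD.factor [Nonempty κ] (h : HD φ m) (h0 : φ 0 = 1) (x : V κ) :
    m x = m (ct x) * φ (Real.sqrt (Fintype.card κ) * av x) := by
  have h1 := h.prod (ct x) (av x)
  have h2 : av (ct x) = 0 := by
    unfold av
    rw [sum_ct, zero_div]
  have h3 : ct x + cst (av x) = x := by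
    unfold ct
    simp
  rw [h2, h3, mul_zero, h0, mul_one, zero_add] at h1
  exact h1

theorem HD.convex (h : HD φ m) (c : ℝ) (hc : 0 < c) : Convex ℝ {x | c ≤ m x} := by
  intro x hx y hy a b ha hb hab
  rcases ha.eq_or_lt with h1 | h1
  · rw [← h1, zero_smul, zero_add]
    have : b = 1 := by linarith
    rw [this, one_smul]
    exact hy
  rcases hb.eq_or_lt with h2 | h2
  · rw [← h2, zero_smul, add_zero]
    have : a = 1 := by linarith
    rw [this, one_smul]
    exact hx
  have h3 := h.logc x y b h2 (by linarith)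
  have e : 1 - b = a := by linarith
  rw [e] at h3
  show c ≤ m (a • x + b • y)
  refine le_trans ?_ h3
  have h4 : c ^ a ≤ m x ^ a := Real.rpow_le_rpow hc.le hx ha
  have h5 : c ^ b ≤ m y ^ b := Real.rpow_le_rpow hc.le hy hb
  calc c = c ^ a * c ^ b := by rw [← Real.rpow_add hc, hab, Real.rpow_one]
    _ ≤ m x ^ a * m y ^ b := mul_le_mul h4 h5 (Real.rpow_nonneg hc.le _)
        (Real.rpow_nonneg (h.nonneg x) _)

/-- the linear map given by a matrix applied to a fixed vector -/
noncomputable def mv (y : V κ) : Matrix κ κ ℝ →ₗ[ℝ] V κ where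
  toFun D := WithLp.toLp 2 (D.mulVec fun i => y i)
  map_add' D D' := by
    ext i
    simp [Matrix.add_mulVec]
  map_smul' c D := by
    ext i
    simp [Matrix.smul_mulVec]

omit [Fintype κ] in
theorem mv_apply [Fintype κ] (y : V κ) (D : Matrix κ κ ℝ) (i : κ) : mv y D i = ∑ j, D i j * y j := rfl

theorem major_ds [DecidableEq κ] (h : HD φ m) (y : V κ) (D : Matrix κ κ ℝ)
    (hD : D ∈ doublyStochastic ℝ κ) : m y ≤ m (mv y D) := by
  rcases (h.nonneg y).eq_or_lt with h0 | h0
  · rw [← h0]
    exact h.nonneg _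
  have hc := (h.convex (m y) h0).linear_preimage (mv y)
  have h1 : (doublyStochastic ℝ κ : Set (Matrix κ κ ℝ)) ⊆ mv y ⁻¹' {x | m y ≤ m x} := by
    rw [doublyStochastic_eq_convexHull_permMatrix]
    refine convexHull_min ?_ hc
    rintro _ ⟨σ, rfl⟩
    show m y ≤ m (mv y (σ.permMatrix ℝ))
    refine le_of_eq (h.inv σ _ _ fun i => ?_).symm
    rw [mv_apply, Finset.sum_eq_single (σ i)]
    · simp [Equiv.Perm.permMatrix, Equiv.toPEquiv, PEquiv.toMatrix]
    · intro j _ hj
      have : j ≠ σ i := hj
      simp [Equiv.Perm.permMatrix, Equiv.toPEquiv, PEquiv.toMatrix, this.symm]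
    · intro hn
      exact absurd (Finset.mem_univ _) hn
  exact h1 hD

/-- the total absolute value of the coordinates -/
noncomputable def l1 (x : V κ) : ℝ := ∑ i, |x i|

theorem l1_nonneg (x : V κ) : 0 ≤ l1 x := Finset.sum_nonneg fun _ _ => abs_nonneg _

theorem l1_cont : Continuous (l1 (κ := κ)) := by
  unfold l1
  fun_prop

/-- the cube is majorized -/
theorem major [Nonempty κ] (h : HD φ m) (x y : V κ) (hx : ∑ i, x i = 0) (hy : ∑ i, y i = 0)
    (n : ℝ) (hn : n = Fintype.card κ)
    (hxy : ∀ i, |x i| * (2 * n) ≤ l1 y) : m y ≤ m x := by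
  classical
  have hn0 : 0 < n := by
    rw [hn]
    exact_mod_cast Fintype.card_pos
  obtain ⟨M, hM⟩ : ∃ M : ℝ, M = l1 y := ⟨_, rfl⟩
  rw [← hM] at hxy
  rcases (l1_nonneg y).eq_or_lt with h0 | h0
  · -- both vectors vanish
    rw [← hM] at h0
    have h1 : ∀ i, x i = 0 := fun i => by
      have h2 := hxy i
      rw [← h0] at h2
      have h3 : |x i| ≤ 0 := by
        by_contra hc
        rw [not_le] at hc
        have : 0 < |x i| * (2 * n) := by positivity
        linarith
      exact abs_eq_zero.1 (le_antisymm h3 (abs_nonneg _))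
    have h2 : ∀ i, y i = 0 := fun i => by
      have h3 : ∑ i, |y i| = 0 := by
        rw [hM] at h0
        exact h0.symm
      have h4 := (Finset.sum_eq_zero_iff_of_nonneg fun i _ => abs_nonneg (y i)).1 h3 i
        (Finset.mem_univ i)
      exact abs_eq_zero.1 h4
    have h3 : x = y := by
      ext i
      rw [h1, h2]
    rw [h3]
  rw [← hM] at h0
  obtain ⟨g, hg⟩ : ∃ g : κ → ℝ, g = fun j => if 0 ≤ y j then 1 else -1 := ⟨_, rfl⟩
  have hg1 : ∀ j, |g j| ≤ 1 := fun j => by
    rw [hg]
    by_cases hj : 0 ≤ y j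
    · simp [hj]
    · simp [hj]
  have hgy : ∀ j, g j * y j = |y j| := fun j => by
    rw [hg]
    by_cases hj : 0 ≤ y j
    · simp [hj, abs_of_nonneg hj]
    · simp [hj, abs_of_neg (not_le.1 hj)]
  obtain ⟨μ, hμ⟩ : ∃ μ : ℝ, μ = (∑ j, g j) / n := ⟨_, rfl⟩
  have hμ1 : |μ| ≤ 1 := by
    rw [hμ, abs_div, abs_of_pos hn0, div_le_one hn0]
    refine (Finset.abs_sum_le_sum_abs _ _).trans ?_
    refine (Finset.sum_le_sum fun j _ => hg1 j).trans (le_of_eq ?_)
    rw [Finset.sum_const, Finset.card_univ, nsmul_eq_mul, mul_one, hn]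
  have hsg : ∑ j, (g j - μ) = 0 := by
    rw [Finset.sum_sub_distrib, Finset.sum_const, Finset.card_univ, nsmul_eq_mul, ← hn, hμ]
    field_simp
    ring
  obtain ⟨D, hD⟩ : ∃ D : Matrix κ κ ℝ, D = fun i j => 1 / n + x i / M * (g j - μ) := ⟨_, rfl⟩
  have hDa : ∀ i j, D i j = 1 / n + x i / M * (g j - μ) := fun i j => by rw [hD]
  have hcard : ∑ _j : κ, (1 / n : ℝ) = 1 := by
    rw [Finset.sum_const, Finset.card_univ, nsmul_eq_mul, ← hn]
    field_simp
  have hDs : D ∈ doublyStochastic ℝ κ := by
    rw [mem_doublyStochastic_iff_sum]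
    refine ⟨fun i j => ?_, fun i => ?_, fun j => ?_⟩
    · rw [hDa]
      have h1 : |x i / M * (g j - μ)| ≤ 1 / n := by
        rw [abs_mul, abs_div, abs_of_pos h0]
        have h2 : |g j - μ| ≤ 2 := by
          refine (abs_sub _ _).trans ?_
          linarith [hg1 j]
        have h3 : |x i| / M ≤ 1 / (2 * n) := by
          rw [div_le_div_iff₀ h0 (by positivity), one_mul]
          exact hxy i
        calc |x i| / M * |g j - μ| ≤ 1 / (2 * n) * 2 :=
              mul_le_mul h3 h2 (abs_nonneg _) (by positivity)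
          _ = 1 / n := by field_simp
      have h2 := (abs_le.1 h1).1
      linarith
    · simp only [hDa]
      rw [Finset.sum_add_distrib, hcard, ← Finset.mul_sum, hsg, mul_zero, add_zero]
    · simp only [hDa]
      rw [Finset.sum_add_distrib, hcard, ← Finset.sum_mul, ← Finset.sum_div, hx]
      simp
  have h1 := major_ds h y D hDs
  have h2 : mv y D = x := by
    ext i
    rw [mv_apply]
    simp only [hDa]
    have h3 : ∀ j, (1 / n + x i / M * (g j - μ)) * y j =
        1 / n * y j + x i / M * (|y j| - μ * y j) := fun j => by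
      rw [← hgy j]
      ring
    simp only [h3]
    rw [Finset.sum_add_distrib, ← Finset.mul_sum, hy, mul_zero, zero_add, ← Finset.mul_sum,
      Finset.sum_sub_distrib, ← Finset.mul_sum, hy, mul_zero, sub_zero]
    have h4 : ∑ j, |y j| = M := hM.symm
    rw [h4]
    field_simp
  rwa [h2] at h1

theorem le_zero [Nonempty κ] (h : HD φ m) (y : V κ) (hy : ∑ i, y i = 0) : m y ≤ m 0 := by
  refine major h 0 y (by simp) hy _ rfl fun i => ?_
  have : (0 : V κ) i = 0 := rfl
  rw [this, abs_zero, zero_mul]
  exact l1_nonneg y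

end major

end Pool.Agent.K6.H81.PS
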