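import Pool.Agent.K6.H81.PS.Dens
import Pool.Agent.TH610.RB.Marg

/-!
# The marginal of one coordinate of the particles of one species
-/

set_option autoImplicit false
set_option linter.unusedSectionVars false
set_option linter.unusedVariables false

namespace Pool.Agent.K6.H81.PS

open MeasureTheory Set
open scoped ENNReal InnerProductSpace
open Pool.Agent.H212R2.KLS (mu Bdd)
open Pool.Agent.TH594.KP (ev inner_ev inner_ev_ev swp swp_ev swp_apply GG GD Bs mem_Bs card_Bs_pos)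
open Pool.Agent.TH610.RB (mg rs mg_1 mg_2 rs_mg mg_mp me me_meas me_lt me_logc me_map le_norm_mg)

variable {ι δ β : Type} [Fintype ι] [Fintype δ] [Fintype β] [DecidableEq ι]
  [DecidableEq δ] [DecidableEq β]

variable {b : ι → β}

/-- the coordinates of the species and direction `c` -/
abbrev qc (b : ι → β) (c : β × δ) (p : ι × δ) : Prop := b p.1 = c.1 ∧ p.2 = c.2

theorem sum_sub (b : ι → β) (c : β × δ) (F : ι × δ → ℝ) :
    ∑ p : {p // qc b c p}, F p.1 = ∑ i ∈ Bs b c.1, F (i, c.2) := by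
  rw [← Finset.sum_subtype (Finset.univ.filter fun p => qc b c p) (fun p => by simp) F]
  refine (Finset.sum_nbij' (fun i => (i, c.2)) (fun p => p.1) ?_ ?_ ?_ ?_ ?_).symm
  · intro i hi
    rw [Finset.mem_filter]
    exact ⟨Finset.mem_univ _, (mem_Bs b _ _).1 hi, rfl⟩
  · intro p hp
    rw [Finset.mem_filter] at hp
    exact (mem_Bs b _ _).2 hp.2.1
  · intro i hi
    rfl
  · intro p hp
    rw [Finset.mem_filter] at hp
    exact Prod.ext rfl hp.2.2.symm
  · intro i hi
    rfl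

theorem card_qc (b : ι → β) (c : β × δ) : (Fintype.card {p // qc b c p} : ℝ) = (Bs b c.1).card := by
  have h1 := sum_sub b c fun _ => (1 : ℝ)
  rw [Finset.sum_const, Finset.sum_const, Finset.card_univ, nsmul_eq_mul, nsmul_eq_mul, mul_one,
    mul_one] at h1
  exact h1

theorem av_rs (hb : Function.Surjective b) (c : β × δ) (x : V (ι × δ)) :
    Real.sqrt (Fintype.card {p // qc b c p}) * av (rs (qc b c) x) = ⟪ev b c, x⟫_ℝ := by
  unfold av
  have h1 : ∑ i, (rs (qc b c) x) i = ∑ i ∈ Bs b c.1, x (i, c.2) := sum_sub b c fun p => x p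
  rw [h1, inner_ev, card_qc]
  have hn := card_Bs_pos hb c.1
  have h3 : Real.sqrt (Bs b c.1).card * Real.sqrt (Bs b c.1).card = (Bs b c.1).card :=
    Real.mul_self_sqrt hn.le
  obtain ⟨S, hS⟩ : ∃ S : ℝ, S = Real.sqrt (Bs b c.1).card := ⟨_, rfl⟩
  obtain ⟨n, hn'⟩ : ∃ n : ℝ, n = (Bs b c.1).card := ⟨_, rfl⟩
  rw [← hS] at h3 ⊢
  rw [← hn'] at h3 hn ⊢
  have hS0 : S ≠ 0 := by
    intro h4
    rw [h4, mul_zero] at h3
    linarith
  rw [← h3]
  field_simp

theorem mg_shift (hb : Function.Surjective b) (c : β × δ) (x : V {p // qc b c p})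
    (y : V {p // ¬ qc b c p}) (a : ℝ) :
    mg (qc b c) (x + cst a, y) = mg (qc b c) (x, y) +
      (Real.sqrt (Fintype.card {p // qc b c p}) * a) • ev b c := by
  ext p
  have h2 : (ev b c) p = if b p.1 = c.1 ∧ p.2 = c.2 then 1 / Real.sqrt (Bs b c.1).card else 0 := rfl
  have h3 : (mg (qc b c) (x, y) +
      (Real.sqrt (Fintype.card {p // qc b c p}) * a) • ev b c : V (ι × δ)) p =
      mg (qc b c) (x, y) p + (Real.sqrt (Fintype.card {p // qc b c p}) * a) * (ev b c) p := rfl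
  rw [h3, h2]
  by_cases h : qc b c p
  · rw [mg_1 _ _ p h, mg_1 _ _ p h, if_pos h, card_qc]
    have hn := card_Bs_pos hb c.1
    have h4 : 0 < Real.sqrt (Bs b c.1).card := Real.sqrt_pos.2 hn
    show x ⟨p, h⟩ + a = x ⟨p, h⟩ + _
    field_simp
  · rw [mg_2 _ _ p h, mg_2 _ _ p h, if_neg h, mul_zero, add_zero]

section inv

variable {κ : Type} [Fintype κ] [DecidableEq κ]

theorem inv_of_swap (m : V κ → ℝ)
    (h : ∀ k l : κ, k ≠ l → ∀ x y : V κ, (∀ i, y i = x (Equiv.swap k l i)) → m y = m x)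
    (σ : Equiv.Perm κ) : ∀ x y : V κ, (∀ i, y i = x (σ i)) → m y = m x := by
  induction σ using Equiv.Perm.swap_induction_on with
  | one =>
    intro x y hxy
    have : y = x := by
      ext i
      exact hxy i
    rw [this]
  | swap_mul f k l hkl ih =>
    intro x y hxy
    have h1 := ih (WithLp.toLp 2 fun i => x (Equiv.swap k l i)) y fun i => hxy i
    have h2 := h k l hkl x (WithLp.toLp 2 fun i => x (Equiv.swap k l i)) fun i => rfl
    rw [h1, h2]

/-- composition with a permutation preserves the volume -/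
theorem lint_perm (σ : Equiv.Perm κ) (F : V κ → ℝ≥0∞) :
    ∫⁻ y : V κ, F (WithLp.toLp 2 fun i => y (σ i)) = ∫⁻ y : V κ, F y := by
  obtain ⟨E, hE⟩ : ∃ E : V κ ≃ₗᵢ[ℝ] V κ, ∀ y, E y = WithLp.toLp 2 fun i => y (σ i) :=
    ⟨LinearIsometryEquiv.piLpCongrLeft 2 ℝ ℝ σ.symm, fun y => by
      ext i
      rw [LinearIsometryEquiv.piLpCongrLeft_apply]
      rfl⟩
  have h1 : MeasurePreserving (E : V κ → V κ) volume volume := E.measurePreserving
  have h2 := h1.lintegral_comp_emb E.toHomeomorph.measurableEmbedding F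
  rw [← h2]
  simp only [hE]

end inv

variable {ρ' : V (ι × δ) → ℝ} {r : ℝ}

theorem me_swap (hG : GD (GG δ b) ρ') (c : β × δ) (k l : {p // qc b c p}) (x : V {p // qc b c p})
    (y : V {p // qc b c p}) (hxy : ∀ i, y i = x (Equiv.swap k l i)) :
    me (qc b c) ρ' y = me (qc b c) ρ' x := by
  have hkl : b k.1.1 = b l.1.1 := by rw [k.2.1, l.2.1]
  obtain ⟨Pm, hPm⟩ : ∃ Pm : Equiv.Perm (ι × δ), ∀ p, Pm p = (Equiv.swap k.1.1 l.1.1 p.1, p.2) :=
    ⟨(Equiv.swap k.1.1 l.1.1).prodCongr (Equiv.refl δ), fun p => rfl⟩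
  have hb : ∀ i, b (Equiv.swap k.1.1 l.1.1 i) = b i := by
    intro i
    by_cases h2 : i = k.1.1
    · rw [h2, Equiv.swap_apply_left, hkl]
    · by_cases h3 : i = l.1.1
      · rw [h3, Equiv.swap_apply_right, hkl]
      · rw [Equiv.swap_apply_of_ne_of_ne h2 h3]
  have hq : ∀ p, qc b c (Pm p) ↔ qc b c p := by
    intro p
    rw [hPm]
    show b _ = c.1 ∧ p.2 = c.2 ↔ _
    rw [hb]
  obtain ⟨τ, hτ⟩ : ∃ τ : Equiv.Perm {p // ¬ qc b c p}, ∀ p, (τ p).1 = Pm p.1 :=
    ⟨Pm.subtypePerm fun p => by rw [hq], fun p => rfl⟩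
  have hsw : ∀ p : {p // qc b c p}, (Equiv.swap k l p).1 = Pm p.1 := by
    intro p
    rw [hPm]
    have e1 : ∀ p p' : {p // qc b c p}, p.1.1 = p'.1.1 → p = p' := fun p p' h =>
      Subtype.ext (Prod.ext h (p.2.2.trans p'.2.2.symm))
    have e2 : ∀ p p' : {p // qc b c p}, p.1.2 = p'.1.2 := fun p p' => p.2.2.trans p'.2.2.symm
    by_cases h2 : p = k
    · rw [h2, Equiv.swap_apply_left, Equiv.swap_apply_left]
      exact Prod.ext rfl (e2 _ _)
    · by_cases h3 : p = l
      · rw [h3, Equiv.swap_apply_right, Equiv.swap_apply_right]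
        exact Prod.ext rfl (e2 _ _)
      · rw [Equiv.swap_apply_of_ne_of_ne h2 h3, Equiv.swap_apply_of_ne_of_ne
          (fun h => h2 (e1 _ _ h)) (fun h => h3 (e1 _ _ h))]
  unfold me
  rw [← lint_perm τ]
  refine lintegral_congr fun z => ?_
  congr 1
  have h4 : mg (qc b c) (y, WithLp.toLp 2 fun i => z (τ i)) =
      swp k.1.1 l.1.1 (mg (qc b c) (x, z)) := by
    ext p
    rw [swp_apply]
    by_cases h : qc b c p
    · rw [mg_1 _ _ p h, mg_1 _ _ (Equiv.swap k.1.1 l.1.1 p.1, p.2) (by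
        have := (hq p).2 h
        rwa [hPm] at this)]
      show y ⟨p, h⟩ = x ⟨_, _⟩
      rw [hxy]
      refine congrArg (fun i => x i) (Subtype.ext ?_)
      exact (hsw _).trans (hPm _)
    · rw [mg_2 _ _ p h, mg_2 _ _ (Equiv.swap k.1.1 l.1.1 p.1, p.2) (by
        intro h5
        apply h
        apply (hq p).1
        rwa [hPm])]
      show z (τ ⟨p, h⟩) = z ⟨_, _⟩
      refine congrArg (fun i => z i) (Subtype.ext ?_)
      exact (hτ _).trans (hPm _)
  rw [h4]
  exact hG.inv _ ⟨_, _, hkl, rfl⟩ _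

/-- **the marginal** -/
theorem me_HD (hb : Function.Surjective b) (hG : GD (GG δ b) ρ') (c : β × δ)
    (hfin : ∀ x, me (qc b c) ρ' x < ⊤)
    (hsh : ∀ (x : V (ι × δ)) (a : ℝ), ρ' (x + a • ev b c) * ph r ⟪ev b c, x⟫_ℝ =
      ρ' x * ph r (⟪ev b c, x⟫_ℝ + a)) :
    HD (ph r) fun x => (me (qc b c) ρ' x).toReal where
  nonneg x := ENNReal.toReal_nonneg
  meas := (me_meas _ ρ' hG.meas).ennreal_toReal
  logc := me_logc _ ρ' hG.nonneg hG.meas hG.logc hfin
  inv := inv_of_swap _ fun k l _ x y hxy => by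
    show (me (qc b c) ρ' y).toReal = (me (qc b c) ρ' x).toReal
    rw [me_swap hG c k l x y hxy]
  prod x a := by
    obtain ⟨S, hS⟩ : ∃ S : ℝ, S = Real.sqrt (Fintype.card {p // qc b c p}) := ⟨_, rfl⟩
    have h1 : ∀ y : V {p // ¬ qc b c p}, ρ' (mg (qc b c) (x + cst a, y)) * ph r (S * av x) =
        ρ' (mg (qc b c) (x, y)) * ph r (S * (av x + a)) := by
      intro y
      have h2 := hsh (mg (qc b c) (x, y)) (S * a)
      have h3 : ⟪ev b c, mg (qc b c) (x, y)⟫_ℝ = S * av x := by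
        rw [← av_rs hb, rs_mg, hS]
      rw [h3] at h2
      rw [mg_shift hb, ← hS, mul_add]
      exact h2
    have hm : ∀ x : V {p // qc b c p}, Measurable fun y : V {p // ¬ qc b c p} =>
        ENNReal.ofReal (ρ' (mg (qc b c) (x, y))) := fun x =>
      (hG.meas.comp ((mg_mp (qc b c)).measurable.comp measurable_prodMk_left)).ennreal_ofReal
    have h2 : me (qc b c) ρ' (x + cst a) * ENNReal.ofReal (ph r (S * av x)) =
        me (qc b c) ρ' x * ENNReal.ofReal (ph r (S * (av x + a))) := by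
      unfold me
      rw [← lintegral_mul_const _ (hm _), ← lintegral_mul_const _ (hm _)]
      refine lintegral_congr fun y => ?_
      rw [← ENNReal.ofReal_mul (hG.nonneg _), ← ENNReal.ofReal_mul (hG.nonneg _), h1]
    have h3 := congrArg ENNReal.toReal h2
    rw [ENNReal.toReal_mul, ENNReal.toReal_mul, ENNReal.toReal_ofReal (ph_nonneg _ _),
      ENNReal.toReal_ofReal (ph_nonneg _ _)] at h3
    rw [← hS]
    exact h3

/-- the tail of the sum of the absolute values of one coordinate -/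
theorem tailc (hb : Function.Surjective b) (hG : GD (GG δ b) ρ') (hB : Bdd ρ')
    (h1 : mu ρ' univ = 1) (hr : 0 < r) (c : β × δ)
    (hsh : ∀ (x : V (ι × δ)) (a : ℝ), ρ' (x + a • ev b c) * ph r ⟪ev b c, x⟫_ℝ =
      ρ' x * ph r (⟪ev b c, x⟫_ℝ + a))
    (hsup : ∀ x, ρ' x ≠ 0 → |⟪ev b c, x⟫_ℝ| ≤ r)
    (hco : ∀ p, ∫ x, x p ^ 2 ∂(mu ρ') ≤ (2 * r) ^ 2) (l : ℝ) (hl : 1 ≤ l) :
    mu ρ' {x | (l * (2 * lam * r) + r) * (Bs b c.1).card < ∑ i ∈ Bs b c.1, |x (i, c.2)|} ≤
      ENNReal.ofReal (Real.exp (-(3 * (Bs b c.1).card * (l - 1)))) := by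
  obtain ⟨i0, hi0⟩ := hb c.1
  have hne : Nonempty {p // qc b c p} := ⟨⟨(i0, c.2), hi0, rfl⟩⟩
  obtain ⟨B', hB'⟩ := Pool.Agent.H888R2.KC.bdd_of_finite ρ' hG.nonneg hG.meas hG.logc
    (by rw [h1]; exact ENNReal.one_ne_top)
    (by
      intro h0
      rw [h0] at h1
      simp at h1)
  have hfin := me_lt (qc b c) ρ' hB B' hB'
  have hHD := me_HD (r := r) hb hG c hfin hsh
  have hmap := me_map (qc b c) ρ' hG.meas hfin
  obtain ⟨m, hm⟩ : ∃ m : V {p // qc b c p} → ℝ, m = fun x => (me (qc b c) ρ' x).toReal := ⟨_, rfl⟩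
  rw [← hm] at hHD hmap
  have hrs : Measurable (rs (qc b c)) := (LinearMap.continuous_of_finiteDimensional _).measurable
  have hmass : mu m univ = 1 := by
    rw [← hmap, Measure.map_apply hrs MeasurableSet.univ, preimage_univ, h1]
  have hbdm : Bdd m := by
    obtain ⟨R, hR⟩ := hB
    refine ⟨R, fun x hx => ?_⟩
    have h3 : me (qc b c) ρ' x = 0 := by
      unfold me
      have : ∀ y : V {p // ¬ qc b c p}, ENNReal.ofReal (ρ' (mg (qc b c) (x, y))) = 0 := by
        intro y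
        rw [hR _ (lt_of_lt_of_le hx (le_norm_mg _ x y))]
        simp
      simp [this]
    rw [hm]
    show (me (qc b c) ρ' x).toReal = 0
    rw [h3]
    simp
  have hv : ∀ i, ∫ x, x i ^ 2 ∂(mu m) ≤ (2 * r) ^ 2 := by
    intro i
    rw [← hmap, integral_map hrs.aemeasurable]
    · exact hco i.1
    · have : Continuous fun x : V {p // qc b c p} => x i ^ 2 := by fun_prop
      exact this.aestronglyMeasurable
  have htail := tail hr hHD hbdm hmass hv l hl
  rw [← hmap, Measure.map_apply hrs (measurableSet_lt measurable_const l1_ct_cont.measurable)]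
    at htail
  simp only [card_qc] at htail
  refine le_trans (measure_mono_ae ?_) htail
  filter_upwards [ae_supp hG.meas] with x hx hx2
  have h2 := hsup x hx
  rw [← av_rs hb, abs_mul, abs_of_nonneg (Real.sqrt_nonneg _), card_qc] at h2
  obtain ⟨n, hn⟩ : ∃ n : ℝ, n = (Bs b c.1).card := ⟨_, rfl⟩
  have hx3 : (l * (2 * lam * r) + r) * (Bs b c.1).card < ∑ i ∈ Bs b c.1, |x (i, c.2)| := hx2
  show l * (2 * lam * r) * (Bs b c.1).card < l1 (ct (rs (qc b c) x))
  rw [← hn] at h2 hx3 ⊢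
  have hn1 : 1 ≤ n := by
    rw [hn]
    have h3 := card_Bs_pos hb c.1
    exact_mod_cast h3
  have h4 : ∑ i ∈ Bs b c.1, |x (i, c.2)| = l1 (rs (qc b c) x) :=
    (sum_sub b c fun p => |x p|).symm
  rw [h4] at hx3
  have h5 : l1 (rs (qc b c) x) ≤ l1 (ct (rs (qc b c) x)) + n * |av (rs (qc b c) x)| := by
    unfold l1
    have h6 : n * |av (rs (qc b c) x)| = ∑ _i : {p // qc b c p}, |av (rs (qc b c) x)| := by
      rw [Finset.sum_const, Finset.card_univ, nsmul_eq_mul, card_qc, hn]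
    rw [h6, ← Finset.sum_add_distrib]
    refine Finset.sum_le_sum fun i _ => ?_
    have h7 : (rs (qc b c) x) i = ct (rs (qc b c) x) i + av (rs (qc b c) x) := by
      rw [ct_apply]
      ring
    conv_lhs => rw [h7]
    exact abs_add_le _ _
  have h6 : n * |av (rs (qc b c) x)| ≤ n * r := by
    have h8 : 1 ≤ Real.sqrt n := by
      rw [← Real.sqrt_one]
      exact Real.sqrt_le_sqrt hn1
    have h7 : n * |av (rs (qc b c) x)| = Real.sqrt n * (Real.sqrt n * |av (rs (qc b c) x)|) := by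
      rw [← mul_assoc, Real.mul_self_sqrt (by linarith)]
    rw [h7]
    have h9 : Real.sqrt n ≤ n := by
      rw [Real.sqrt_le_left (by linarith)]
      nlinarith
    calc Real.sqrt n * (Real.sqrt n * |av (rs (qc b c) x)|) ≤ Real.sqrt n * r :=
          mul_le_mul_of_nonneg_left h2 (by linarith)
      _ ≤ n * r := mul_le_mul_of_nonneg_right h9 hr.le
  nlinarith

end Pool.Agent.K6.H81.PS
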