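import Pool.Agent.K6.H81.PS.Tl
import Pool.Agent.TH594.KP.Bas

/-!
# Configurations with fixed centres of mass: the product with a density for the centres of mass

`j` is an isometric parametrization of the space of all configurations such that the centres of
mass of the species in `Z` are at the origin.
-/

set_option autoImplicit false

namespace Pool.Agent.K6.H81.PS

open MeasureTheory Set
open scoped ENNReal InnerProductSpace
open Pool.Agent.H212R2.KLS (mu Bdd)
open Pool.Agent.TH594.KP (ev inner_ev inner_ev_ev swp swp_ev GG GD Bs mem_Bs card_Bs_pos)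

section lin

variable {X : Type} [NormedAddCommGroup X] [InnerProductSpace ℝ X] [FiniteDimensional ℝ X]
  {κ : Type} [Fintype κ]

/-- the orthogonal projection in coordinates -/
noncomputable def jt (j : V κ →ₗᵢ[ℝ] X) : X →L[ℝ] V κ :=
  ContinuousLinearMap.adjoint j.toContinuousLinearMap

theorem inner_jt (j : V κ →ₗᵢ[ℝ] X) (x : X) (y : V κ) : ⟪jt j x, y⟫_ℝ = ⟪x, j y⟫_ℝ :=
  ContinuousLinearMap.adjoint_inner_left _ _ _

theorem jt_j (j : V κ →ₗᵢ[ℝ] X) (y : V κ) : jt j (j y) = y := by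
  refine ext_inner_right ℝ fun z => ?_
  rw [inner_jt, j.inner_map_map]

theorem norm_jt (j : V κ →ₗᵢ[ℝ] X) (x : X) : ‖jt j x‖ ≤ ‖x‖ := by
  have h1 : ‖jt j x‖ * ‖jt j x‖ ≤ ‖x‖ * ‖jt j x‖ := by
    rw [← real_inner_self_eq_norm_mul_norm, inner_jt]
    refine (real_inner_le_norm _ _).trans ?_
    rw [j.norm_map]
  rcases (norm_nonneg (jt j x)).eq_or_lt with h | h
  · rw [← h]
    exact norm_nonneg _
  · exact le_of_mul_le_mul_right h1 h

end lin

variable {ι δ β κ : Type} [Fintype ι] [Fintype δ] [Fintype β] [Fintype κ] [DecidableEq ι]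
  [DecidableEq δ] [DecidableEq β] [DecidableEq κ]

/-- the species and directions with fixed centre of mass -/
abbrev Sg (δ : Type) {β : Type} (Z : Finset β) : Type := {c : β × δ // c.1 ∈ Z}

/-- `j` parametrizes the configurations for which the centres of mass of the species in `Z` are at
the origin -/
structure Par (b : ι → β) (Z : Finset β) (j : V κ →ₗᵢ[ℝ] V (ι × δ)) : Prop where
  sur : Function.Surjective b
  range : ∀ x : V (ι × δ), (∃ y, j y = x) ↔ ∀ c : β × δ, c.1 ∈ Z → ⟪ev b c, x⟫_ℝ = 0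

variable {b : ι → β} {Z : Finset β} {j : V κ →ₗᵢ[ℝ] V (ι × δ)}

omit [Fintype β] [DecidableEq ι] [DecidableEq κ] in
theorem Par.inner_j (hp : Par b Z j) (c : Sg δ Z) (y : V κ) : ⟪ev b c.1, j y⟫_ℝ = 0 :=
  (hp.range (j y)).1 ⟨y, rfl⟩ c.1 c.2

omit [Fintype β] [DecidableEq ι] [DecidableEq κ] in
theorem Par.jt_ev (hp : Par b Z j) (c : Sg δ Z) : jt j (ev b c.1) = 0 := by
  refine ext_inner_right ℝ fun z => ?_
  rw [inner_jt, hp.inner_j c, inner_zero_left]

omit [DecidableEq ι] [DecidableEq κ] in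
theorem Par.orth (hp : Par b Z j) (x : V (ι × δ)) (c : Sg δ Z) :
    ⟪ev b c.1, x - ∑ c : Sg δ Z, ⟪ev b c.1, x⟫_ℝ • ev b c.1⟫_ℝ = 0 := by
  rw [inner_sub_right, inner_sum]
  have h1 : ∀ c' : Sg δ Z, ⟪ev b c.1, ⟪ev b c'.1, x⟫_ℝ • ev b c'.1⟫_ℝ =
      if c = c' then ⟪ev b c'.1, x⟫_ℝ else 0 := by
    intro c'
    rw [real_inner_smul_right, inner_ev_ev hp.sur]
    by_cases h : c = c'
    · rw [if_pos h, if_pos (congrArg Subtype.val h), mul_one]
    · rw [if_neg h, if_neg (fun h2 => h (Subtype.ext h2)), mul_zero]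
  simp only [h1]
  simp

omit [DecidableEq ι] [DecidableEq κ] in
theorem Par.j_jt (hp : Par b Z j) (x : V (ι × δ)) :
    j (jt j x) = x - ∑ c : Sg δ Z, ⟪ev b c.1, x⟫_ℝ • ev b c.1 := by
  obtain ⟨y, hy⟩ := (hp.range (x - ∑ c : Sg δ Z, ⟪ev b c.1, x⟫_ℝ • ev b c.1)).2
    fun c hc => hp.orth x ⟨c, hc⟩
  have h1 : jt j x = y := by
    have h2 := congrArg (jt j) hy
    rw [jt_j, map_sub, map_sum] at h2
    have h3 : ∑ c : Sg δ Z, jt j (⟪ev b c.1, x⟫_ℝ • ev b c.1) = 0 := by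
      refine Finset.sum_eq_zero fun c _ => ?_
      rw [map_smul, hp.jt_ev, smul_zero]
    rw [h3, sub_zero] at h2
    exact h2.symm
  rw [h1, hy]

/-- the orthonormal basis -/
noncomputable def fam (b : ι → β) (Z : Finset β) (j : V κ →ₗᵢ[ℝ] V (ι × δ)) :
    κ ⊕ Sg δ Z → V (ι × δ) :=
  Sum.elim (fun k => j (EuclideanSpace.single k 1)) fun c => ev b c.1

omit [Fintype β] [DecidableEq ι] in
theorem Par.fam_on (hp : Par b Z j) : Orthonormal ℝ (fam b Z j) := by
  rw [orthonormal_iff_ite]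
  rintro (k | c) (k' | c')
  · show ⟪j (EuclideanSpace.single k 1), j (EuclideanSpace.single k' 1)⟫_ℝ = _
    rw [j.inner_map_map, EuclideanSpace.inner_single_left]
    by_cases h : k = k'
    · subst h
      simp
    · simp [h]
  · show ⟪j (EuclideanSpace.single k 1), ev b c'.1⟫_ℝ = _
    rw [real_inner_comm, hp.inner_j c']
    simp
  · show ⟪ev b c.1, j (EuclideanSpace.single k' 1)⟫_ℝ = _
    rw [hp.inner_j c]
    simp
  · show ⟪ev b c.1, ev b c'.1⟫_ℝ = _
    rw [inner_ev_ev hp.sur]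
    by_cases h : c = c'
    · subst h
      simp
    · rw [if_neg (fun h2 => h (Subtype.ext h2)), if_neg (fun h2 => h (Sum.inr_injective h2))]

omit [DecidableEq ι] in
theorem Par.fam_span (hp : Par b Z j) : ⊤ ≤ Submodule.span ℝ (Set.range (fam b Z j)) := by
  intro x _
  have h1 := hp.j_jt x
  have h2 : x = j (jt j x) + ∑ c : Sg δ Z, ⟪ev b c.1, x⟫_ℝ • ev b c.1 := by
    rw [h1]
    simp
  rw [h2]
  refine Submodule.add_mem _ ?_ ?_
  · have h3 : jt j x = ∑ k, (jt j x) k • EuclideanSpace.single k (1 : ℝ) := by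
      ext i
      simp [Finset.sum_apply, Pi.single_apply]
    rw [h3, map_sum]
    refine Submodule.sum_mem _ fun k _ => ?_
    rw [map_smul]
    exact Submodule.smul_mem _ _ (Submodule.subset_span ⟨Sum.inl k, rfl⟩)
  · refine Submodule.sum_mem _ fun c _ => ?_
    exact Submodule.smul_mem _ _ (Submodule.subset_span ⟨Sum.inr c, rfl⟩)

/-- the orthonormal basis -/
noncomputable def Par.bas (hp : Par b Z j) : OrthonormalBasis (κ ⊕ Sg δ Z) ℝ (V (ι × δ)) :=
  OrthonormalBasis.mk hp.fam_on hp.fam_span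

/-- configuration with given relative part and centres of mass -/
noncomputable def TT (b : ι → β) (Z : Finset β) (j : V κ →ₗᵢ[ℝ] V (ι × δ))
    (z : V κ × V (Sg δ Z)) : V (ι × δ) := j z.1 + ∑ c : Sg δ Z, z.2 c • ev b c.1

omit [DecidableEq ι] in
theorem Par.TT_eq (hp : Par b Z j) (z : V κ × V (Sg δ Z)) :
    TT b Z j z = hp.bas.repr.symm (WithLp.toLp 2 (Sum.elim (fun k => z.1 k) fun c => z.2 c)) := by
  rw [← OrthonormalBasis.sum_repr_symm, Fintype.sum_sum_type]
  have h1 : ∀ i, hp.bas i = fam b Z j i := fun i => by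
    unfold Par.bas
    rw [OrthonormalBasis.coe_mk]
  simp only [h1]
  unfold TT
  congr 1
  have h3 : z.1 = ∑ k, z.1 k • EuclideanSpace.single k (1 : ℝ) := by
    ext i
    simp [Finset.sum_apply, Pi.single_apply]
  conv_lhs => rw [h3]
  rw [map_sum]
  refine Finset.sum_congr rfl fun k _ => ?_
  rw [map_smul]
  rfl

omit [DecidableEq ι] in
theorem Par.TT_mp (hp : Par b Z j) : MeasurePreserving (TT b Z j)
    ((volume : Measure (V κ)).prod (volume : Measure (V (Sg δ Z)))) volume := by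
  have h1 : MeasurePreserving (fun z : V κ × V (Sg δ Z) =>
      ((z.1.ofLp, z.2.ofLp) : (κ → ℝ) × (Sg δ Z → ℝ)))
      ((volume : Measure (V κ)).prod (volume : Measure (V (Sg δ Z))))
      ((volume : Measure (κ → ℝ)).prod (volume : Measure (Sg δ Z → ℝ))) :=
    (PiLp.volume_preserving_ofLp _).prod (PiLp.volume_preserving_ofLp _)
  have h2 := measurePreserving_sumPiEquivProdPi_symm (X := fun _ : κ ⊕ Sg δ Z => ℝ)
    (fun _ => (volume : Measure ℝ))
  have h4 := PiLp.volume_preserving_toLp (κ ⊕ Sg δ Z)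
  have h5 := hp.bas.repr.symm.measurePreserving
  have h6 := h5.comp (h4.comp (h2.comp h1))
  have h7 : TT b Z j = (hp.bas.repr.symm ∘ ((WithLp.toLp 2) ∘
      ((MeasurableEquiv.sumPiEquivProdPi (fun _ : κ ⊕ Sg δ Z => ℝ)).symm ∘
      (fun z : V κ × V (Sg δ Z) => ((z.1.ofLp, z.2.ofLp) : (κ → ℝ) × (Sg δ Z → ℝ)))))) := by
    funext z
    rw [hp.TT_eq]
    show _ = hp.bas.repr.symm (WithLp.toLp 2 _)
    congr 2
  rw [h7]
  exact h6

omit [Fintype β] [DecidableEq ι] [DecidableEq κ] in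
theorem Par.jt_TT [Fintype β] (hp : Par b Z j) (z : V κ × V (Sg δ Z)) : jt j (TT b Z j z) = z.1 := by
  unfold TT
  rw [map_add, jt_j, map_sum]
  have h3 : ∑ c : Sg δ Z, jt j (z.2 c • ev b c.1) = 0 := by
    refine Finset.sum_eq_zero fun c _ => ?_
    rw [map_smul, hp.jt_ev, smul_zero]
  rw [h3, add_zero]

omit [DecidableEq ι] [DecidableEq κ] in
theorem Par.ev_TT (hp : Par b Z j) (z : V κ × V (Sg δ Z)) (c : Sg δ Z) :
    ⟪ev b c.1, TT b Z j z⟫_ℝ = z.2 c := by
  unfold TT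
  rw [inner_add_right, hp.inner_j, zero_add, inner_sum]
  have h1 : ∀ c' : Sg δ Z, ⟪ev b c.1, z.2 c' • ev b c'.1⟫_ℝ = if c = c' then z.2 c' else 0 := by
    intro c'
    rw [real_inner_smul_right, inner_ev_ev hp.sur]
    by_cases h : c = c'
    · rw [if_pos h, if_pos (congrArg Subtype.val h), mul_one]
    · rw [if_neg h, if_neg (fun h2 => h (Subtype.ext h2)), mul_zero]
  simp only [h1]
  simp

/-! ### the density of the centres of mass -/

/-- the mass of the product -/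
noncomputable def c0 (σ : Type) [Fintype σ] (r : ℝ) : ℝ≥0∞ :=
  ∫⁻ z : V σ, ENNReal.ofReal (∏ c, ph r (z c))

theorem prod_meas (σ : Type) [Fintype σ] (r : ℝ) : Measurable fun z : V σ => ∏ c, ph r (z c) := by
  refine Finset.measurable_prod _ fun c _ => ?_
  have h1 : Measurable fun z : V σ => z c := by fun_prop
  exact (ph_meas r).comp h1

theorem c0_ne_top (σ : Type) [Fintype σ] {r : ℝ} (hr : 0 < r) : c0 σ r ≠ ⊤ := by
  have h1 := vol_cube (κ := σ) (2 * r) (by positivity)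
  have h3 : 2 * r / 2 = r := by ring
  simp only [h3] at h1
  have hm : MeasurableSet {x : V σ | ∀ i, |x i| ≤ r} := by
    have : {x : V σ | ∀ i, |x i| ≤ r} = ⋂ i, {x | |x i| ≤ r} := by
      ext x
      simp
    rw [this]
    refine MeasurableSet.iInter fun i => measurableSet_le ?_ measurable_const
    fun_prop
  have h2 : c0 σ r ≤ ∫⁻ z : V σ, {x : V σ | ∀ i, |x i| ≤ r}.indicator (fun _ => 1) z := by
    unfold c0
    refine lintegral_mono fun z => ?_
    by_cases hz : z ∈ {x : V σ | ∀ i, |x i| ≤ r}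
    · rw [indicator_of_mem hz]
      rw [← ENNReal.ofReal_one]
      apply ENNReal.ofReal_le_ofReal
      exact Finset.prod_le_one (fun c _ => ph_nonneg _ _) fun c _ => ph_le _ _
    · rw [indicator_of_notMem hz]
      have : ∃ i, ¬ |z i| ≤ r := by
        by_contra hc
        push Not at hc
        exact hz hc
      obtain ⟨i, hi⟩ := this
      have h4 : ph r (z i) = 0 := by
        unfold ph
        rw [if_neg hi]
      rw [Finset.prod_eq_zero (Finset.mem_univ i) h4]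
      simp
  rw [lintegral_indicator hm, setLIntegral_const, one_mul, h1] at h2
  exact ne_top_of_le_ne_top ENNReal.ofReal_ne_top h2

theorem c0_ne_zero (σ : Type) [Fintype σ] {r : ℝ} (hr : 0 < r) : c0 σ r ≠ 0 := by
  intro h0
  unfold c0 at h0
  rw [lintegral_eq_zero_iff (prod_meas σ r).ennreal_ofReal] at h0
  have h1 := vol_cube (κ := σ) (2 * r) (by positivity)
  have h3 : 2 * r / 2 = r := by ring
  simp only [h3] at h1
  have h4 : volume {x : V σ | ∀ i, |x i| ≤ r} = 0 := by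
    refine measure_mono_null ?_ h0
    intro x hx h5
    have h6 : ENNReal.ofReal (∏ c, ph r (x c)) = 0 := h5
    rw [ENNReal.ofReal_eq_zero] at h6
    have h7 : 0 < ∏ c, ph r (x c) := Finset.prod_pos fun c _ => by
      have := ph_ge hr (hx c)
      linarith
    linarith
  rw [h4] at h1
  have h5 : 0 < ENNReal.ofReal ((2 * r) ^ Fintype.card σ) := by
    rw [ENNReal.ofReal_pos]
    positivity
  rw [← h1] at h5
  exact lt_irrefl _ h5

/-- the product density for the centres of mass -/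
noncomputable def Ga (σ : Type) [Fintype σ] (r : ℝ) (z : σ → ℝ) : ℝ :=
  (c0 σ r).toReal⁻¹ * ∏ c, ph r (z c)

theorem Ga_nonneg (σ : Type) [Fintype σ] (r : ℝ) (z : σ → ℝ) : 0 ≤ Ga σ r z :=
  mul_nonneg (inv_nonneg.2 ENNReal.toReal_nonneg) (Finset.prod_nonneg fun _ _ => ph_nonneg _ _)

theorem Ga_int (σ : Type) [Fintype σ] {r : ℝ} (hr : 0 < r) :
    ∫⁻ z : V σ, ENNReal.ofReal (Ga σ r fun c => z c) = 1 := by
  unfold Ga
  have h1 : ∀ z : V σ, ENNReal.ofReal ((c0 σ r).toReal⁻¹ * ∏ c, ph r (z c)) =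
      ENNReal.ofReal ((c0 σ r).toReal⁻¹) * ENNReal.ofReal (∏ c, ph r (z c)) := fun z =>
    ENNReal.ofReal_mul (inv_nonneg.2 ENNReal.toReal_nonneg)
  simp only [h1]
  rw [lintegral_const_mul _ (prod_meas σ r).ennreal_ofReal]
  have h2 := c0_ne_zero σ hr
  have h3 := c0_ne_top σ hr
  have h4 : ENNReal.ofReal ((c0 σ r).toReal⁻¹) = (c0 σ r)⁻¹ := by
    rw [ENNReal.ofReal_inv_of_pos (ENNReal.toReal_pos h2 h3), ENNReal.ofReal_toReal h3]
  rw [h4]
  exact ENNReal.inv_mul_cancel h2 h3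

theorem ph_logc (r a c t : ℝ) (ht0 : 0 < t) (ht1 : t < 1) :
    ph r a ^ (1 - t) * ph r c ^ t ≤ ph r ((1 - t) * a + t * c) := by
  by_cases ha : |a| ≤ r
  · by_cases hc : |c| ≤ r
    · have h1 : |(1 - t) * a + t * c| ≤ r := by
        refine (abs_add_le _ _).trans ?_
        rw [abs_mul, abs_mul, abs_of_pos (by linarith : 0 < 1 - t), abs_of_pos ht0]
        nlinarith
      unfold ph
      rw [if_pos ha, if_pos hc, if_pos h1, ← Real.exp_mul, ← Real.exp_mul, ← Real.exp_add,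
        Real.exp_le_exp]
      have h2 : ((1 - t) * a + t * c) ^ 2 ≤ (1 - t) * a ^ 2 + t * c ^ 2 := by
        have h3 : (1 - t) * a ^ 2 + t * c ^ 2 - ((1 - t) * a + t * c) ^ 2 =
            t * (1 - t) * (a - c) ^ 2 := by ring
        have h4 : 0 ≤ t * (1 - t) * (a - c) ^ 2 :=
          mul_nonneg (mul_nonneg ht0.le (by linarith)) (sq_nonneg _)
        linarith
      have h3 := div_le_div_of_nonneg_right h2 (by positivity : (0 : ℝ) ≤ 2 * r ^ 2)
      have h4 : ((1 - t) * a ^ 2 + t * c ^ 2) / (2 * r ^ 2) =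
          a ^ 2 / (2 * r ^ 2) * (1 - t) + c ^ 2 / (2 * r ^ 2) * t := by ring
      linarith
    · have h1 : ph r c = 0 := by
        unfold ph
        rw [if_neg hc]
      rw [h1, Real.zero_rpow ht0.ne', mul_zero]
      exact ph_nonneg _ _
  · have h1 : ph r a = 0 := by
      unfold ph
      rw [if_neg ha]
    rw [h1, Real.zero_rpow (by linarith : 1 - t ≠ 0), zero_mul]
    exact ph_nonneg _ _

theorem Ga_logc (σ : Type) [Fintype σ] (r : ℝ) (a c : σ → ℝ) (t : ℝ) (ht0 : 0 < t) (ht1 : t < 1) :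
    Ga σ r a ^ (1 - t) * Ga σ r c ^ t ≤ Ga σ r fun i => (1 - t) * a i + t * c i := by
  unfold Ga
  obtain ⟨C, hC⟩ : ∃ C : ℝ, C = (c0 σ r).toReal⁻¹ := ⟨_, rfl⟩
  have hC0 : 0 ≤ C := by
    rw [hC]
    exact inv_nonneg.2 ENNReal.toReal_nonneg
  rw [← hC, Real.mul_rpow hC0 (Finset.prod_nonneg fun _ _ => ph_nonneg _ _),
    Real.mul_rpow hC0 (Finset.prod_nonneg fun _ _ => ph_nonneg _ _),
    ← Real.finsetProd_rpow _ _ (fun _ _ => ph_nonneg _ _),
    ← Real.finsetProd_rpow _ _ (fun _ _ => ph_nonneg _ _)]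
  have h2 : C ^ (1 - t) * C ^ t ≤ C := by
    rcases hC0.eq_or_lt with h3 | h3
    · rw [← h3, Real.zero_rpow ht0.ne']
      simp
    · rw [← Real.rpow_add h3]
      simp
  have h3 : (∏ i, ph r (a i) ^ (1 - t)) * (∏ i, ph r (c i) ^ t) ≤
      ∏ i, ph r ((1 - t) * a i + t * c i) := by
    rw [← Finset.prod_mul_distrib]
    refine Finset.prod_le_prod (fun i _ => ?_) fun i _ => ph_logc r _ _ t ht0 ht1
    exact mul_nonneg (Real.rpow_nonneg (ph_nonneg _ _) _) (Real.rpow_nonneg (ph_nonneg _ _) _)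
  calc C ^ (1 - t) * (∏ i, ph r (a i) ^ (1 - t)) * (C ^ t * ∏ i, ph r (c i) ^ t)
      = (C ^ (1 - t) * C ^ t) * ((∏ i, ph r (a i) ^ (1 - t)) * (∏ i, ph r (c i) ^ t)) := by ring
    _ ≤ C * ∏ i, ph r ((1 - t) * a i + t * c i) := by
      refine mul_le_mul h2 h3 ?_ hC0
      exact mul_nonneg (Finset.prod_nonneg fun _ _ => Real.rpow_nonneg (ph_nonneg _ _) _)
        (Finset.prod_nonneg fun _ _ => Real.rpow_nonneg (ph_nonneg _ _) _)

theorem ph_mid {r : ℝ} (hr : 0 < r) (K : ℝ) (hK : r ^ 2 ≤ K) (a c : ℝ) :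
    ph r a * ph r c ≤ ph r ((a + c) / 2) ^ 2 * Real.exp (-((a - c) ^ 2 / (4 * K))) := by
  have hK0 : 0 < K := lt_of_lt_of_le (by positivity) hK
  by_cases ha : |a| ≤ r
  · by_cases hc : |c| ≤ r
    · have h1 : |(a + c) / 2| ≤ r := by
        rw [abs_div, abs_two]
        have := abs_add_le a c
        linarith
      unfold ph
      rw [if_pos ha, if_pos hc, if_pos h1, ← Real.exp_add, ← Real.exp_nat_mul, ← Real.exp_add,
        Real.exp_le_exp]
      have h2 : (a - c) ^ 2 / (4 * K) ≤ (a - c) ^ 2 / (4 * r ^ 2) :=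
        div_le_div_of_nonneg_left (sq_nonneg _) (by positivity) (by linarith)
      have h3 : a ^ 2 / (2 * r ^ 2) + c ^ 2 / (2 * r ^ 2) =
          2 * (((a + c) / 2) ^ 2 / (2 * r ^ 2)) + (a - c) ^ 2 / (4 * r ^ 2) := by
        field_simp
        ring
      push_cast
      linarith
    · have h1 : ph r c = 0 := by
        unfold ph
        rw [if_neg hc]
      rw [h1, mul_zero]
      positivity
  · have h1 : ph r a = 0 := by
      unfold ph
      rw [if_neg ha]
    rw [h1, zero_mul]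
    positivity

theorem Ga_mid (σ : Type) [Fintype σ] {r : ℝ} (hr : 0 < r) (K : ℝ) (hK : r ^ 2 ≤ K)
    (a c : σ → ℝ) :
    Ga σ r a * Ga σ r c ≤ (Ga σ r fun i => (a i + c i) / 2) ^ 2 *
      Real.exp (-((∑ i, (a i - c i) ^ 2) / (4 * K))) := by
  unfold Ga
  obtain ⟨C, hC⟩ : ∃ C : ℝ, C = (c0 σ r).toReal⁻¹ := ⟨_, rfl⟩
  rw [← hC]
  have h1 : Real.exp (-((∑ i, (a i - c i) ^ 2) / (4 * K))) =
      ∏ i, Real.exp (-((a i - c i) ^ 2 / (4 * K))) := by
    rw [← Real.exp_sum, Finset.sum_neg_distrib, Finset.sum_div]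
  have h2 : (∏ i, ph r (a i)) * (∏ i, ph r (c i)) ≤
      (∏ i, ph r ((a i + c i) / 2)) ^ 2 * Real.exp (-((∑ i, (a i - c i) ^ 2) / (4 * K))) := by
    rw [h1, ← Finset.prod_pow, ← Finset.prod_mul_distrib, ← Finset.prod_mul_distrib]
    exact Finset.prod_le_prod (fun i _ => mul_nonneg (ph_nonneg _ _) (ph_nonneg _ _))
      fun i _ => ph_mid hr K hK _ _
  calc C * (∏ i, ph r (a i)) * (C * ∏ i, ph r (c i))
      = C ^ 2 * ((∏ i, ph r (a i)) * (∏ i, ph r (c i))) := by ring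
    _ ≤ C ^ 2 * ((∏ i, ph r ((a i + c i) / 2)) ^ 2 *
        Real.exp (-((∑ i, (a i - c i) ^ 2) / (4 * K)))) :=
      mul_le_mul_of_nonneg_left h2 (sq_nonneg _)
    _ = _ := by ring

end Pool.Agent.K6.H81.PS
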