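import Pool.Agent.K6.H81.PS.Vol

/-!
# The tail of the total distance to the centre of mass: the estimate

After `Pool.Agent.TH610.RB.Tail` (starting files).
-/

set_option autoImplicit false

namespace Pool.Agent.K6.H81.PS

open MeasureTheory Set
open scoped ENNReal InnerProductSpace
open Pool.Agent.H212R2.KLS (mu Bdd)
open Pool.Agent.TH610.RB (int_prod ae_bdd step2 scale)

variable {κ : Type} [Fintype κ] {m : V κ → ℝ}

theorem meas_le [Nonempty κ] {r : ℝ} (hr : 0 < r) (h : HD (ph r) m) (c : ℝ) (hc0 : 0 < c)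
    (T : Set (V κ)) (hTm : MeasurableSet T) (hle : ∀ x ∈ T, l1 x ≤ 2 * Fintype.card κ * c) :
    (mu m).real T ≤ m 0 * Real.exp (2 * Fintype.card κ) * (2 * c) ^ Fintype.card κ := by
  obtain ⟨n, hn⟩ : ∃ n, n = Fintype.card κ := ⟨_, rfl⟩
  have hprod := int_prod (κ := κ) c hc0
  rw [← hn] at hle hprod ⊢
  have hρ0 : 0 ≤ m 0 := h.nonneg 0
  obtain ⟨K, hK⟩ : ∃ K : ℝ, K = m 0 * Real.exp (2 * n) := ⟨_, rfl⟩
  rw [← hK]
  have hK0 : 0 ≤ K := by rw [hK]; positivity
  have hpint : Integrable (fun x : V κ => ∏ i, Real.exp (-|x i| / c)) := by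
    apply Integrable.of_integral_ne_zero
    rw [hprod]
    positivity
  have hgint : Integrable (fun x : V κ => K * ∏ i, Real.exp (-|x i| / c)) := hpint.const_mul _
  have hpos : ∀ x : V κ, 0 ≤ K * ∏ i, Real.exp (-|x i| / c) := fun x =>
    mul_nonneg hK0 (Finset.prod_nonneg fun i _ => (Real.exp_pos _).le)
  have hint : ∫ x : V κ, K * ∏ i, Real.exp (-|x i| / c) = K * (2 * c) ^ n := by
    rw [integral_const_mul, hprod]
  have hpt : ∀ x ∈ T, m x ≤ K * ∏ i, Real.exp (-|x i| / c) := by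
    intro x hx
    have h1 : ∏ i, Real.exp (-|x i| / c) = Real.exp (-(∑ i, |x i|) / c) := by
      rw [← Real.exp_sum]
      congr 1
      rw [← Finset.sum_div, Finset.sum_neg_distrib]
    rw [h1, hK, mul_assoc, ← Real.exp_add]
    have h2 : 0 ≤ 2 * (n : ℝ) + -(∑ i, |x i|) / c := by
      have h3 : ∑ i, |x i| ≤ 2 * n * c := hle x hx
      have h4 : (∑ i, |x i|) / c ≤ 2 * n := by
        rw [div_le_iff₀ hc0]
        exact h3
      rw [neg_div]
      linarith
    have h5 : 1 ≤ Real.exp (2 * (n : ℝ) + -(∑ i, |x i|) / c) := Real.one_le_exp h2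
    calc m x ≤ m 0 := le_m0 hr h x
      _ = m 0 * 1 := (mul_one _).symm
      _ ≤ m 0 * Real.exp (2 * (n : ℝ) + -(∑ i, |x i|) / c) := mul_le_mul_of_nonneg_left h5 hρ0
  have h0 : mu m T = ∫⁻ x in T, ENNReal.ofReal (m x) := by
    unfold mu
    exact withDensity_apply _ hTm
  have h1 : ∫⁻ x in T, ENNReal.ofReal (m x) ≤
      ∫⁻ x in T, ENNReal.ofReal (K * ∏ i, Real.exp (-|x i| / c)) :=
    setLIntegral_mono' hTm fun x hx => ENNReal.ofReal_le_ofReal (hpt x hx)
  have h2 : ∫⁻ x in T, ENNReal.ofReal (K * ∏ i, Real.exp (-|x i| / c)) ≤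
      ∫⁻ x : V κ, ENNReal.ofReal (K * ∏ i, Real.exp (-|x i| / c)) := setLIntegral_le_lintegral _ _
  have h3 : ∫⁻ x : V κ, ENNReal.ofReal (K * ∏ i, Real.exp (-|x i| / c)) =
      ENNReal.ofReal (K * (2 * c) ^ n) := by
    rw [← hint]
    exact (ofReal_integral_eq_lintegral_ofReal hgint (ae_of_all _ hpos)).symm
  have h4 : mu m T ≤ ENNReal.ofReal (K * (2 * c) ^ n) := by
    rw [h0, ← h3]
    exact h1.trans h2
  rw [measureReal_def]
  exact ENNReal.toReal_le_of_le_ofReal (by positivity) h4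

theorem l1_sq (x : V κ) : l1 x ^ 2 ≤ Fintype.card κ * ∑ i, x i ^ 2 := by
  unfold l1
  refine (sq_sum_le_card_mul_sum_sq (s := Finset.univ) (f := fun i => |x i|)).trans (le_of_eq ?_)
  rw [Finset.card_univ]
  simp only [sq_abs]

theorem low [Nonempty κ] {r : ℝ} (hr : 0 < r) (h : HD (ph r) m)
    (hB : Bdd m) (hmu : mu m univ = 1) (c : ℝ) (hc0 : 0 < c)
    (hv : ∀ i, ∫ x, x i ^ 2 ∂(mu m) ≤ c ^ 2) :
    3 / 4 ≤ m 0 * (2 * Real.exp 2 * c) ^ Fintype.card κ := by
  obtain ⟨R, hR⟩ := hB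
  obtain ⟨n, hn'⟩ : ∃ n, n = Fintype.card κ := ⟨_, rfl⟩
  have hn : 1 ≤ n := by rw [hn']; exact Fintype.card_pos
  have hle' := meas_le hr h c hc0
  have hsq := l1_sq (κ := κ)
  rw [← hn'] at hle' hsq ⊢
  have hn0 : (0 : ℝ) < n := by exact_mod_cast hn
  have : IsProbabilityMeasure (mu m) := ⟨hmu⟩
  have hae := ae_bdd m R hR
  have hcoord : ∀ i : κ, Measurable (fun x : V κ => x i) := fun i => by fun_prop
  have hint : ∀ i : κ, Integrable (fun x : V κ => x i ^ 2) (mu m) := by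
    intro i
    refine Integrable.of_bound ((hcoord i).pow_const 2).aestronglyMeasurable (R ^ 2) ?_
    filter_upwards [hae] with x hx
    rw [Real.norm_eq_abs, abs_of_nonneg (sq_nonneg _)]
    have h1 : |x i| ≤ ‖x‖ := by
      have h2 := PiLp.norm_apply_le x i
      rwa [Real.norm_eq_abs] at h2
    have h3 : |x i| ≤ R := h1.trans hx
    calc x i ^ 2 = |x i| ^ 2 := (sq_abs _).symm
      _ ≤ R ^ 2 := pow_le_pow_left₀ (abs_nonneg _) h3 2
  have hnmM : Measurable (l1 (κ := κ)) := l1_cont.measurable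
  have hintsum : Integrable (fun x : V κ => (n : ℝ) * ∑ i, x i ^ 2) (mu m) :=
    (integrable_finsetSum _ fun i _ => hint i).const_mul _
  have hintnm : Integrable (fun x : V κ => l1 x ^ 2) (mu m) := by
    refine hintsum.mono' (hnmM.pow_const 2).aestronglyMeasurable (ae_of_all _ fun x => ?_)
    rw [Real.norm_eq_abs, abs_of_nonneg (sq_nonneg _)]
    exact hsq x
  have hnm2 : ∫ x, l1 x ^ 2 ∂(mu m) ≤ n ^ 2 * c ^ 2 := by
    calc ∫ x, l1 x ^ 2 ∂(mu m) ≤ ∫ x : V κ, (n : ℝ) * ∑ i, x i ^ 2 ∂(mu m) :=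
          integral_mono hintnm hintsum hsq
      _ = n * ∑ i : κ, ∫ x : V κ, x i ^ 2 ∂(mu m) := by
          rw [integral_const_mul, integral_finsetSum _ fun i _ => hint i]
      _ ≤ n * ∑ i : κ, c ^ 2 := by
          gcongr with i hi
          exact hv i
      _ = n ^ 2 * c ^ 2 := by
          rw [Finset.sum_const, Finset.card_univ, ← hn', nsmul_eq_mul]
          ring
  have hmark := mul_meas_ge_le_integral_of_nonneg (μ := mu m) (f := fun x : V κ => l1 x ^ 2)
    (ae_of_all _ fun x => sq_nonneg _) hintnm (4 * n ^ 2 * c ^ 2)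
  have hmark2 : (mu m).real {x : V κ | 4 * n ^ 2 * c ^ 2 ≤ l1 x ^ 2} ≤ 1 / 4 := by
    have h1 := hmark.trans hnm2
    have h2 : (0 : ℝ) < n ^ 2 * c ^ 2 := by positivity
    have h3 : (n ^ 2 * c ^ 2) * (4 * (mu m).real {x : V κ | 4 * n ^ 2 * c ^ 2 ≤ l1 x ^ 2}) ≤
        (n ^ 2 * c ^ 2) * 1 := by linarith
    have h4 := le_of_mul_le_mul_left h3 h2
    linarith
  obtain ⟨T, hT⟩ : ∃ T : Set (V κ), T = {x : V κ | l1 x ≤ 2 * n * c} := ⟨_, rfl⟩
  have hTm : MeasurableSet T := by
    rw [hT]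
    exact measurableSet_le hnmM measurable_const
  have hsub : Tᶜ ⊆ {x : V κ | 4 * n ^ 2 * c ^ 2 ≤ l1 x ^ 2} := by
    intro x hx
    have h1 : 2 * n * c < l1 x := by
      by_contra hcon
      refine hx ?_
      rw [hT]
      exact not_lt.1 hcon
    show 4 * n ^ 2 * c ^ 2 ≤ l1 x ^ 2
    have h2 : (4 : ℝ) * n ^ 2 * c ^ 2 = (2 * n * c) ^ 2 := by
      ring
    rw [h2]
    have : 0 ≤ 2 * n * c := by positivity
    exact pow_le_pow_left₀ this h1.le 2
  have hTcompl : (mu m).real Tᶜ ≤ 1 / 4 := (measureReal_mono hsub).trans hmark2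
  have hTge : 3 / 4 ≤ (mu m).real T := by
    have h1 := probReal_compl_eq_one_sub (μ := mu m) hTm
    linarith
  have hle2 := hle' T hTm fun x hx => by
    rw [hT] at hx
    exact hx
  refine (hTge.trans hle2).trans (le_of_eq ?_)
  have h6 : Real.exp (2 * n) = Real.exp 2 ^ n := by
    rw [← Real.exp_nat_mul]
    congr 1
    ring
  rw [h6, mul_assoc, ← mul_pow]
  congr 2
  ring

theorem exp6 : 4 * Real.exp 6 ≤ 1620 := by
  have := Pool.Agent.TH610.RB.exp6
  linarith

/-- the constant of the tail estimate -/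
noncomputable def lam : ℝ := 100000000

theorem sqrt_le_two_pow {n : ℕ} (hn : 2 ≤ n) : Real.sqrt n ≤ 2 ^ (n - 1) := by
  rw [Real.sqrt_le_left (by positivity)]
  have h1 : ∀ k : ℕ, k + 2 ≤ 2 ^ (k + 1) := by
    intro k
    induction k with
    | zero => norm_num
    | succ k ih =>
      rw [pow_succ]
      omega
  obtain ⟨k, rfl⟩ : ∃ k, n = k + 2 := ⟨n - 2, by omega⟩
  have h2 : k + 2 - 1 = k + 1 := by omega
  rw [h2]
  have h3 : ((k + 2 : ℕ) : ℝ) ≤ 2 ^ (k + 1) := by exact_mod_cast h1 k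
  have h4 : (1 : ℝ) ≤ 2 ^ (k + 1) := one_le_pow₀ (by norm_num)
  nlinarith

theorem step1 {n : ℕ} (hn : 2 ≤ n) (a q r : ℝ) (ha : 0 ≤ a) (hr : 0 < r)
    (hq : 3 / 4 ≤ q * (2 * Real.exp 2 * (2 * r)) ^ n)
    (h : a * (lam ^ (n - 1) * r ^ n) ≤ 10 * Real.sqrt n) :
    a * Real.exp (4 * n) ≤ q := by
  have hS := sqrt_le_two_pow hn
  have e4 : Real.exp (4 * n) = Real.exp 4 ^ n := by
    rw [← Real.exp_nat_mul]; congr 1; ring
  obtain ⟨X, hX⟩ : ∃ X : ℝ, X = r ^ n := ⟨_, rfl⟩
  have hX0 : 0 < X := by rw [hX]; positivity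
  -- the numbers
  have hnum : 14 * Real.sqrt n * (Real.exp 4 ^ n * (4 * Real.exp 2) ^ n) ≤ lam ^ (n - 1) := by
    have h1 : Real.exp 4 ^ n * (4 * Real.exp 2) ^ n ≤ 1620 ^ n := by
      rw [← mul_pow]
      apply pow_le_pow_left₀ (by positivity)
      have e6 : Real.exp 4 * (4 * Real.exp 2) = 4 * Real.exp 6 := by
        have : Real.exp 6 = Real.exp 4 * Real.exp 2 := by
          rw [← Real.exp_add]; norm_num
        rw [this]; ring
      rw [e6]
      exact exp6
    have h2 : (1620 : ℝ) ^ n ≤ (1620 ^ 2) ^ (n - 1) := by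
      rw [← pow_mul]
      apply pow_le_pow_right₀ (by norm_num)
      omega
    have h3 : (14 : ℝ) ≤ 14 ^ (n - 1) := by
      calc (14 : ℝ) = 14 ^ 1 := by norm_num
        _ ≤ 14 ^ (n - 1) := pow_le_pow_right₀ (by norm_num) (by omega)
    calc 14 * Real.sqrt n * (Real.exp 4 ^ n * (4 * Real.exp 2) ^ n)
        ≤ 14 ^ (n - 1) * 2 ^ (n - 1) * (1620 ^ 2) ^ (n - 1) := by
          refine mul_le_mul (mul_le_mul h3 hS (Real.sqrt_nonneg _) (by positivity))
            (h1.trans h2) (by positivity) (by positivity)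
      _ = (14 * 2 * 1620 ^ 2) ^ (n - 1) := by rw [← mul_pow, ← mul_pow]
      _ ≤ lam ^ (n - 1) := by
          apply pow_le_pow_left₀ (by norm_num)
          unfold lam
          norm_num
  have hq2 : 3 / 4 ≤ q * ((4 * Real.exp 2) ^ n * X) := by
    have e : (2 * Real.exp 2 * (2 * r)) ^ n = (4 * Real.exp 2) ^ n * X := by
      rw [hX, ← mul_pow]
      congr 1
      ring
    rwa [e] at hq
  rw [← hX] at h
  obtain ⟨A, hA⟩ : ∃ A : ℝ, A = (4 * Real.exp 2) ^ n := ⟨_, rfl⟩
  obtain ⟨B, hB⟩ : ∃ B : ℝ, B = Real.exp 4 ^ n := ⟨_, rfl⟩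
  obtain ⟨L, hL⟩ : ∃ L : ℝ, L = lam ^ (n - 1) := ⟨_, rfl⟩
  obtain ⟨S, hSd⟩ : ∃ S : ℝ, S = Real.sqrt n := ⟨_, rfl⟩
  have hA0 : 0 < A := by rw [hA]; positivity
  have hB0 : 0 < B := by rw [hB]; positivity
  have hL0 : 0 < L := by
    rw [hL]
    unfold lam
    positivity
  have hS0 : 0 < S := by
    rw [hSd]
    apply Real.sqrt_pos.2
    have : 0 < n := by omega
    exact_mod_cast this
  rw [e4, ← hB]
  rw [← hA, ← hB, ← hL, ← hSd] at hnum
  rw [← hA] at hq2
  rw [← hL, ← hSd] at h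
  -- `a B ≤ q`
  have h1 : a * B * (A * X * L) ≤ q * (A * X * L) := by
    calc a * B * (A * X * L) = (a * (L * X)) * (A * B) := by ring
      _ ≤ (10 * S) * (A * B) := mul_le_mul_of_nonneg_right h (by positivity)
      _ = (3 / 4) * (40 / 3 * S * (B * A)) := by ring
      _ ≤ (3 / 4) * (14 * S * (B * A)) := by
          have : 0 ≤ S * (B * A) := by positivity
          nlinarith
      _ ≤ (3 / 4) * L := mul_le_mul_of_nonneg_left hnum (by norm_num)
      _ ≤ (q * (A * X)) * L := mul_le_mul_of_nonneg_right hq2 hL0.le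
      _ = q * (A * X * L) := by ring
  exact le_of_mul_le_mul_right h1 (by positivity)

theorem l1_smul (c : ℝ) (hc : 0 ≤ c) (x : V κ) : l1 (c • x) = c * l1 x := by
  unfold l1
  rw [Finset.mul_sum]
  refine Finset.sum_congr rfl fun i _ => ?_
  show |c * x i| = _
  rw [abs_mul, abs_of_nonneg hc]

theorem ct_smul (c : ℝ) (x : V κ) : ct (c • x) = c • ct x := by
  ext i
  rw [ct_apply, av_smul]
  show c * x i - c * av x = c * ct x i
  rw [ct_apply]
  ring

theorem l1_ct_cont : Continuous fun x : V κ => l1 (ct x) := by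
  unfold l1
  exact continuous_finsetSum _ fun i _ => (ct_cont i).abs

/-- **the tail** -/
theorem tail [Nonempty κ] {r : ℝ} (hr : 0 < r) (h : HD (ph r) m)
    (hB : Bdd m) (h1 : mu m univ = 1)
    (hv : ∀ i, ∫ x, x i ^ 2 ∂(mu m) ≤ (2 * r) ^ 2) (l : ℝ) (hl : 1 ≤ l) :
    mu m {x | l * (2 * lam * r) * Fintype.card κ < l1 (ct x)} ≤
      ENNReal.ofReal (Real.exp (-(3 * Fintype.card κ * (l - 1)))) := by
  have hlam : 1 ≤ lam := by unfold lam; norm_num
  have hl0 : 0 < l := by linarith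
  obtain ⟨n, hn'⟩ : ∃ n, n = Fintype.card κ := ⟨_, rfl⟩
  have hn1 : 1 ≤ n := by rw [hn']; exact Fintype.card_pos
  rcases Nat.lt_or_ge n 2 with h2 | hn
  · -- one coordinate
    have hn0 : n = 1 := by omega
    have hempty : {x : V κ | l * (2 * lam * r) * Fintype.card κ < l1 (ct x)} = ∅ := by
      ext x
      simp only [mem_setOf_eq, mem_empty_iff_false, iff_false, not_lt]
      have h3 : l1 (ct x) = 0 := by
        have h4 : Subsingleton κ := by
          rw [← Fintype.card_le_one_iff_subsingleton, ← hn', hn0]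
        unfold l1
        refine Finset.sum_eq_zero fun i _ => ?_
        have h5 := sum_ct x
        rw [Finset.sum_eq_single i (fun j _ hj => absurd (Subsingleton.elim j i) hj)
          (fun hn => absurd (Finset.mem_univ _) hn)] at h5
        rw [h5, abs_zero]
      rw [h3]
      positivity
    rw [hempty, measure_empty]
    exact zero_le
  have hlow := low hr h hB h1 (2 * r) (by positivity) hv
  have hsc := scale (κ := κ) l hl0
  rw [← hn'] at hlow hsc ⊢
  have hn0 : (0 : ℝ) < n := by exact_mod_cast hn1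
  have hq : 0 < m 0 := by
    by_contra hcon
    have hD : 0 < (2 * Real.exp 2 * (2 * r)) ^ n := by positivity
    have : m 0 * (2 * Real.exp 2 * (2 * r)) ^ n ≤ 0 :=
      mul_nonpos_of_nonpos_of_nonneg (not_lt.1 hcon) hD.le
    linarith
  have hpt : ∀ y : V κ, 2 * lam * r * n < l1 (ct y) →
      m (l • y) ≤ m y * Real.exp (-(4 * n * (l - 1))) := by
    intro y hy
    have h2 := up hr h h1 (ct y) (sum_ct y) lam hlam (by
      rw [← hn']
      exact hy.le)
    rw [← hn'] at h2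
    have h3 := step1 hn (m (ct y)) (m 0) r (h.nonneg _) hr hlow h2
    have h4 : m (l • ct y) ≤ m (ct y) * Real.exp (-(4 * n * (l - 1))) := by
      rcases eq_or_lt_of_le hl with h | h'
      · subst h
        simp
      · refine step2 (m (ct y)) (m (l • ct y)) (m 0) l (h.nonneg _) (h.nonneg _) hq h' ?_ h3
        have ht0 : 0 < 1 / l := by positivity
        have ht1 : 1 / l < 1 := by rw [div_lt_one hl0]; exact h'
        have h4 := h.logc 0 (l • ct y) (1 / l) ht0 ht1
        have e : (1 - 1 / l) • (0 : V κ) + (1 / l) • (l • ct y) = ct y := by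
          rw [smul_zero, zero_add, smul_smul]
          have : 1 / l * l = 1 := by field_simp
          rw [this, one_smul]
        rw [e] at h4
        exact h4
    rw [h.factor (ph_zero hr) (l • y), h.factor (ph_zero hr) y, ct_smul, av_smul]
    have e : Real.sqrt (Fintype.card κ) * (l * av y) = l * (Real.sqrt (Fintype.card κ) * av y) := by
      ring
    rw [e]
    calc m (l • ct y) * ph r (l * (Real.sqrt (Fintype.card κ) * av y))
        ≤ (m (ct y) * Real.exp (-(4 * n * (l - 1)))) *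
          ph r (Real.sqrt (Fintype.card κ) * av y) :=
          mul_le_mul h4 (ph_mul l _ hl) (ph_nonneg _ _)
            (mul_nonneg (h.nonneg _) (Real.exp_pos _).le)
      _ = _ := by ring
  obtain ⟨X, hX⟩ : ∃ X : Set (V κ), X = {x | l * (2 * lam * r) * n < l1 (ct x)} := ⟨_, rfl⟩
  obtain ⟨Y, hY⟩ : ∃ Y : Set (V κ), Y = {y | 2 * lam * r * n < l1 (ct y)} := ⟨_, rfl⟩
  rw [← hX]
  have hXm : MeasurableSet X := by
    rw [hX]
    exact measurableSet_lt measurable_const l1_ct_cont.measurable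
  have hXY : ∀ y : V κ, l • y ∈ X ↔ y ∈ Y := by
    intro y
    rw [hX, hY]
    show l * (2 * lam * r) * n < l1 (ct (l • y)) ↔ 2 * lam * r * n < l1 (ct y)
    rw [ct_smul, l1_smul l hl0.le, mul_assoc, mul_lt_mul_iff_right₀ hl0]
  have e1 : mu m X = ∫⁻ x, X.indicator (fun x => ENNReal.ofReal (m x)) x := by
    unfold mu
    rw [withDensity_apply _ hXm, lintegral_indicator hXm]
  rw [e1, hsc]
  have e2 : ∫⁻ y, X.indicator (fun x => ENNReal.ofReal (m x)) (l • y)
      ≤ ENNReal.ofReal (Real.exp (-(4 * n * (l - 1)))) := by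
    have e3 : ∀ y : V κ, X.indicator (fun x => ENNReal.ofReal (m x)) (l • y)
        ≤ ENNReal.ofReal (Real.exp (-(4 * n * (l - 1)))) * ENNReal.ofReal (m y) := by
      intro y
      by_cases hy : y ∈ Y
      · rw [indicator_of_mem ((hXY y).2 hy), ← ENNReal.ofReal_mul (Real.exp_pos _).le]
        apply ENNReal.ofReal_le_ofReal
        rw [mul_comm]
        rw [hY] at hy
        exact hpt y hy
      · rw [indicator_of_notMem (fun h => hy ((hXY y).1 h))]
        exact zero_le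
    calc ∫⁻ y, X.indicator (fun x => ENNReal.ofReal (m x)) (l • y)
        ≤ ∫⁻ y : V κ, ENNReal.ofReal (Real.exp (-(4 * n * (l - 1)))) * ENNReal.ofReal (m y) :=
          lintegral_mono e3
      _ = ENNReal.ofReal (Real.exp (-(4 * n * (l - 1)))) * ∫⁻ y : V κ, ENNReal.ofReal (m y) := by
          rw [lintegral_const_mul]
          exact h.meas.ennreal_ofReal
      _ = ENNReal.ofReal (Real.exp (-(4 * n * (l - 1)))) := by
          have : ∫⁻ y : V κ, ENNReal.ofReal (m y) = 1 := by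
            rw [← h1]; unfold mu
            rw [withDensity_apply _ MeasurableSet.univ, Measure.restrict_univ]
          rw [this, mul_one]
  calc ENNReal.ofReal (l ^ n) * ∫⁻ y, X.indicator (fun x => ENNReal.ofReal (m x)) (l • y)
      ≤ ENNReal.ofReal (l ^ n) * ENNReal.ofReal (Real.exp (-(4 * n * (l - 1)))) := by gcongr
    _ = ENNReal.ofReal (l ^ n * Real.exp (-(4 * n * (l - 1)))) := by
        rw [ENNReal.ofReal_mul (by positivity)]
    _ ≤ ENNReal.ofReal (Real.exp (-(3 * n * (l - 1)))) := by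
        apply ENNReal.ofReal_le_ofReal
        have h5 : l ≤ Real.exp (l - 1) := by
          have := Real.add_one_le_exp (l - 1); linarith
        calc l ^ n * Real.exp (-(4 * n * (l - 1)))
            ≤ Real.exp (l - 1) ^ n * Real.exp (-(4 * n * (l - 1))) := by gcongr
          _ = Real.exp (-(3 * n * (l - 1))) := by
              rw [← Real.exp_nat_mul, ← Real.exp_add]; congr 1; ring

end Pool.Agent.K6.H81.PS
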