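import Pool.Agent.K6.H81.PS.Loc

/-!
# The tail of the level sets and the free directions
-/

set_option autoImplicit false
set_option linter.unusedSectionVars false
set_option linter.unusedVariables false

namespace Pool.Agent.K6.H81.PS

open MeasureTheory Set
open scoped ENNReal InnerProductSpace
open Pool.Agent.H212R2.KLS (mu Bdd)
open Pool.Agent.H888R2.KT.G2x (intg)
open Pool.Agent.TH594.KP (ev inner_ev inner_ev_ev swp swp_ev swp_apply GG GD Bs mem_Bs card_Bs_pos
  ed sum_ed lev lev_closed lev_convex lev_mono ns P P_apply norm_P_le)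

variable {ι δ β κ : Type} [Fintype ι] [Fintype δ] [Fintype β] [Fintype κ] [DecidableEq ι]
  [DecidableEq δ] [DecidableEq β] [DecidableEq κ]

variable {b : ι → β} {Z : Finset β} {j : V κ →ₗᵢ[ℝ] V (ι × δ)} {ρ : V κ → ℝ} {r : ℝ}

/-- the number of species with free centre of mass -/
abbrev q0 {β : Type} [Fintype β] [DecidableEq β] (Z : Finset β) : ℕ := Fintype.card {c : β // c ∉ Z}

/-- the shift of the level -/
noncomputable def Mm (δ : Type) [Fintype δ] {β : Type} [Fintype β] [DecidableEq β] (Z : Finset β)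
    (T : ℝ) : ℝ :=
  1 + T + Real.log (2 * Fintype.card δ) + 2 * Real.log (2 * (1 + q0 Z))

theorem Mm_pos (hδ : 0 < Fintype.card δ) (Z : Finset β) {T : ℝ} (hT : 0 ≤ T) : 1 ≤ Mm δ Z T := by
  unfold Mm
  have h1 : (1 : ℝ) ≤ Fintype.card δ := by exact_mod_cast hδ
  have h2 : 0 ≤ Real.log (2 * Fintype.card δ) := Real.log_nonneg (by linarith)
  have h4 : (0 : ℝ) ≤ q0 Z := Nat.cast_nonneg _
  have h3 : 0 ≤ Real.log (2 * (1 + (q0 Z : ℝ))) := Real.log_nonneg (by linarith)
  linarith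

/-- the level at time `t` -/
noncomputable def lv (δ : Type) [Fintype δ] {β : Type} [Fintype β] [DecidableEq β] (Z : Finset β)
    (T r t : ℝ) : ℝ := 8 * lam * Fintype.card δ * r * (t + Mm δ Z T)

theorem lam_pos : 0 < lam := by unfold lam; norm_num

theorem lam_one : 1 ≤ lam := by unfold lam; norm_num

theorem ns_le (b : ι → β) (c : β) (x : V (ι × δ)) :
    ns b c x ≤ ∑ a : δ, ∑ i ∈ Bs b c, |x (i, a)| := by
  unfold ns
  rw [Finset.sum_comm]
  refine Finset.sum_le_sum fun i _ => ?_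
  have h1 : ‖P i x‖ ≤ ∑ a : δ, ‖(P i x) a‖ := by
    have h2 : ‖P i x‖ ^ 2 ≤ (∑ a : δ, ‖(P i x) a‖) ^ 2 := by
      rw [EuclideanSpace.norm_sq_eq]
      exact Finset.sum_sq_le_sq_sum_of_nonneg fun a _ => norm_nonneg _
    exact le_of_sq_le_sq h2 (Finset.sum_nonneg fun a _ => norm_nonneg _)
  refine h1.trans (le_of_eq (Finset.sum_congr rfl fun a _ => ?_))
  rw [P_apply, Real.norm_eq_abs]

/-- assumptions on the density on the configurations with fixed centres of mass -/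
structure As (b : ι → β) (Z : Finset β) (j : V κ →ₗᵢ[ℝ] V (ι × δ)) (ρ : V κ → ℝ) (r : ℝ) : Prop where
  par : Par b Z j
  r0 : 0 < r
  nonneg : ∀ x, 0 ≤ ρ x
  meas : Measurable ρ
  logc : ∀ x y : V κ, ∀ t : ℝ, 0 < t → t < 1 → ρ x ^ (1 - t) * ρ y ^ t ≤ ρ ((1 - t) • x + t • y)
  inv : InvJ b j ρ
  bdd : Bdd ρ
  mass : mu ρ univ = 1
  mom : ∀ θ : V κ, ∫ x, ⟪θ, x⟫_ℝ ^ 2 ∂(mu ρ) ≤ r ^ 2 * ‖θ‖ ^ 2

theorem As.gd (h : As b Z j ρ r) : GD (GG δ b) (rp b Z j r ρ) :=
  rp_gd h.par h.nonneg h.meas h.logc h.inv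

theorem As.mass' (h : As b Z j ρ r) : mu (rp b Z j r ρ) univ = 1 := by
  have h1 := map_jt h.par h.r0 h.nonneg h.meas
  have h2 := congrArg (fun m : Measure (V κ) => m univ) h1
  rw [Measure.map_apply (jt j).continuous.measurable MeasurableSet.univ, preimage_univ, h.mass] at h2
  exact h2

theorem As.coord (h : As b Z j ρ r) (p : ι × δ) :
    ∫ x, x p ^ 2 ∂(mu (rp b Z j r ρ)) ≤ (2 * r) ^ 2 :=
  coord_le h.par h.r0 h.nonneg h.meas h.bdd h.mass h.mass' h.mom p

theorem As.ball (h : As b Z j ρ r) :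
    ∃ R, (mu (rp b Z j r ρ)) (Metric.closedBall 0 R)ᶜ = 0 := by
  obtain ⟨R, hR⟩ := rp_bdd (r := r) h.par h.bdd
  refine ⟨R, ?_⟩
  rw [mu, withDensity_apply_eq_zero' ((rp_meas h.meas).ennreal_ofReal.aemeasurable)]
  refine measure_mono_null ?_ (measure_empty (μ := (volume : Measure (V (ι × δ)))))
  intro x hx
  refine hx.1 ?_
  have : R < ‖x‖ := by simpa using hx.2
  simp [hR x this]

/-- the tail for one species with fixed centre of mass -/
theorem As.tz (h : As b Z j ρ r) (hδ : 0 < Fintype.card δ) {T : ℝ} (hT : 0 ≤ T) (c : β)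
    (hc : c ∈ Z) (t : ℝ) (ht : 1 ≤ t) :
    (mu (rp b Z j r ρ)).real {x | lv δ Z T r t * (Bs b c).card < ns b c x} ≤
      Real.exp (-(T * (Bs b c).card)) * (1 / 2 * Real.exp (-(t / 2))) := by
  have hprob : IsProbabilityMeasure (mu (rp b Z j r ρ)) := ⟨h.mass'⟩
  have hr := h.r0
  have hl1 := lam_one
  obtain ⟨d, hd⟩ : ∃ d : ℝ, d = Fintype.card δ := ⟨_, rfl⟩
  have hd1 : 1 ≤ d := by rw [hd]; exact_mod_cast hδ
  obtain ⟨L, hL⟩ : ∃ L : ℝ, L = Real.log (2 * d) := ⟨_, rfl⟩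
  have hL0 : 0 ≤ L := by rw [hL]; exact Real.log_nonneg (by linarith)
  obtain ⟨n, hn⟩ : ∃ n : ℝ, n = (Bs b c).card := ⟨_, rfl⟩
  have hn1 : 1 ≤ n := by
    rw [hn]
    have h3 := card_Bs_pos h.par.sur c
    exact_mod_cast h3
  obtain ⟨l, hl⟩ : ∃ l : ℝ, l = 1 + (T + t + L) := ⟨_, rfl⟩
  have hl2 : 1 ≤ l := by rw [hl]; linarith
  have hMm : 1 + T + L ≤ Mm δ Z T := by
    unfold Mm
    have h4 : (0 : ℝ) ≤ q0 Z := Nat.cast_nonneg _
    have h3 : 0 ≤ Real.log (2 * (1 + (q0 Z : ℝ))) := Real.log_nonneg (by linarith)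
    rw [← hd, ← hL]
    linarith
  have hlev : (l * (2 * lam * r) + r) * d ≤ lv δ Z T r t := by
    unfold lv
    rw [← hd]
    have h1 : l * (2 * lam * r) + r ≤ 8 * lam * r * (t + Mm δ Z T) := by
      have h2 : l + 1 ≤ 2 * (t + Mm δ Z T) := by rw [hl]; linarith
      have h3 : r ≤ 2 * lam * r := by nlinarith
      have h4 : 0 ≤ 2 * lam * r := by positivity
      calc l * (2 * lam * r) + r ≤ l * (2 * lam * r) + 2 * lam * r := by linarith
        _ = (l + 1) * (2 * lam * r) := by ring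
        _ ≤ (2 * (t + Mm δ Z T)) * (2 * lam * r) := mul_le_mul_of_nonneg_right h2 h4
        _ ≤ _ := by
          have h5 : 0 ≤ t + Mm δ Z T := by linarith
          have h6 : 0 ≤ lam * r * (t + Mm δ Z T) := by positivity
          nlinarith
    calc (l * (2 * lam * r) + r) * d ≤ (8 * lam * r * (t + Mm δ Z T)) * d :=
          mul_le_mul_of_nonneg_right h1 (by linarith)
      _ = _ := by ring
  rw [← hn]
  have hsub : {x : V (ι × δ) | lv δ Z T r t * n < ns b c x} ⊆
      ⋃ a ∈ (Finset.univ : Finset δ),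
        {x : V (ι × δ) | (l * (2 * lam * r) + r) * n < ∑ i ∈ Bs b c, |x (i, a)|} := by
    intro x hx
    simp only [mem_iUnion, Finset.mem_univ, exists_prop, true_and, mem_ofPred_eq]
    by_contra hcon
    push Not at hcon
    have h1 : ns b c x ≤ ∑ _a : δ, (l * (2 * lam * r) + r) * n :=
      (ns_le b c x).trans (Finset.sum_le_sum fun a _ => hcon a)
    rw [Finset.sum_const, Finset.card_univ, nsmul_eq_mul, ← hd] at h1
    have h2 : lv δ Z T r t * n < ns b c x := hx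
    have h3 : (l * (2 * lam * r) + r) * d * n ≤ lv δ Z T r t * n :=
      mul_le_mul_of_nonneg_right hlev (by linarith)
    nlinarith
  refine (measureReal_mono hsub (measure_ne_top _ _)).trans ((measureReal_biUnion_finset_le _ _).trans ?_)
  have h3 : ∀ a ∈ (Finset.univ : Finset δ), (mu (rp b Z j r ρ)).real
      {x : V (ι × δ) | (l * (2 * lam * r) + r) * n < ∑ i ∈ Bs b c, |x (i, a)|} ≤
      Real.exp (-(3 * n * (l - 1))) := by
    intro a _
    have h4 := tailc (r := r) h.par.sur h.gd (rp_bdd h.par h.bdd) h.mass' hr (c, a)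
      (fun x e => rp_shift h.par ⟨(c, a), hc⟩ x e) (fun x hx => rp_supp hx ⟨(c, a), hc⟩) h.coord
      l hl2
    rw [measureReal_def]
    refine ENNReal.toReal_le_of_le_ofReal (Real.exp_pos _).le ?_
    rw [hn]
    exact h4
  refine (Finset.sum_le_sum h3).trans ?_
  rw [Finset.sum_const, Finset.card_univ, nsmul_eq_mul, ← hd]
  have e1 : Real.exp (-(3 * n * (l - 1))) ≤
      Real.exp (-(T * n)) * (Real.exp (-(t / 2)) * Real.exp (-L)) := by
    rw [← Real.exp_add, ← Real.exp_add, Real.exp_le_exp, hl]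
    have h5 : 0 ≤ n * T := by positivity
    have h6 : t ≤ n * t := by nlinarith
    have h7 : L ≤ n * L := by nlinarith
    nlinarith
  have e2 : Real.exp (-L) = (2 * d)⁻¹ := by
    rw [hL, Real.exp_neg, Real.exp_log (by linarith)]
  calc d * Real.exp (-(3 * n * (l - 1))) ≤
        d * (Real.exp (-(T * n)) * (Real.exp (-(t / 2)) * Real.exp (-L))) :=
        mul_le_mul_of_nonneg_left e1 (by linarith)
    _ = Real.exp (-(T * n)) * (1 / 2 * Real.exp (-(t / 2))) := by
      rw [e2]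
      field_simp

theorem As.hP (h : As b Z j ρ r) (i : ι) :
    ∫ x, ‖P i x‖ ^ 2 ∂(mu (rp b Z j r ρ)) ≤ Fintype.card δ * (2 * r) ^ 2 := by
  have hprob : IsProbabilityMeasure (mu (rp b Z j r ρ)) := ⟨h.mass'⟩
  have hpc : ∀ p : ι × δ, Continuous fun x : V (ι × δ) => x p ^ 2 := fun p =>
    ((EuclideanSpace.proj p : V (ι × δ) →L[ℝ] ℝ).continuous).pow 2
  have h2 : ∀ x : V (ι × δ), ‖P i x‖ ^ 2 = ∑ a, x (i, a) ^ 2 := by
    intro x
    rw [EuclideanSpace.real_norm_sq_eq]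
    rfl
  simp_rw [h2]
  rw [integral_finsetSum _ fun a _ => intg (mu (rp b Z j r ρ)) h.ball _ (hpc (i, a))]
  refine (Finset.sum_le_sum fun a _ => h.coord (i, a)).trans (le_of_eq ?_)
  rw [Finset.sum_const, Finset.card_univ, nsmul_eq_mul]

/-- the tail for one species with free centre of mass -/
theorem As.tf (h : As b Z j ρ r) (hδ : 0 < Fintype.card δ) {T : ℝ} (hT : 0 ≤ T) (c : β)
    (t : ℝ) (ht : 1 ≤ t) :
    (mu (rp b Z j r ρ)).real {x | lv δ Z T r t * (Bs b c).card < ns b c x} ≤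
      (1 + (q0 Z : ℝ))⁻¹ * (1 / 2 * Real.exp (-(t / 2))) := by
  have hprob : IsProbabilityMeasure (mu (rp b Z j r ρ)) := ⟨h.mass'⟩
  have hr := h.r0
  have hl1 := lam_one
  obtain ⟨d, hd⟩ : ∃ d : ℝ, d = Fintype.card δ := ⟨_, rfl⟩
  have hd1 : 1 ≤ d := by rw [hd]; exact_mod_cast hδ
  obtain ⟨q, hq⟩ : ∃ q : ℝ, q = q0 Z := ⟨_, rfl⟩
  have hq0 : 0 ≤ q := by rw [hq]; exact Nat.cast_nonneg _
  obtain ⟨L, hL⟩ : ∃ L : ℝ, L = Real.log (2 * (1 + q)) := ⟨_, rfl⟩
  have hL0 : 0 ≤ L := by rw [hL]; exact Real.log_nonneg (by linarith)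
  have hc := card_Bs_pos h.par.sur c
  have hn0 : (0 : ℝ) < (Bs b c).card := by exact_mod_cast hc
  have hMm : 2 * L ≤ Mm δ Z T := by
    unfold Mm
    have h3 : 0 ≤ Real.log (2 * d) := Real.log_nonneg (by linarith)
    rw [← hd, ← hq, ← hL]
    linarith
  have h1 := Pool.Agent.TH594.KP.tail1 (rp b Z j r ρ) h.gd (rp_bdd h.par h.bdd) h.mass'
    (d * (2 * r) ^ 2) (by positivity) (fun i => by rw [hd]; exact h.hP i) c hn0 (t + 2 * L)
    (by linarith)
  have hsq : Real.sqrt (d * (2 * r) ^ 2) ≤ d * (2 * r) := by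
    rw [Real.sqrt_le_left (by positivity)]
    have : d * (2 * r) ^ 2 ≤ d ^ 2 * (2 * r) ^ 2 := mul_le_mul_of_nonneg_right (by nlinarith)
      (sq_nonneg _)
    linarith
  have hle : 4 * (t + 2 * L) * Real.sqrt (d * (2 * r) ^ 2) ≤ lv δ Z T r t := by
    unfold lv
    rw [← hd]
    calc 4 * (t + 2 * L) * Real.sqrt (d * (2 * r) ^ 2) ≤ 4 * (t + Mm δ Z T) * (d * (2 * r)) := by
          refine mul_le_mul (by linarith) hsq (Real.sqrt_nonneg _) (by linarith)
      _ = 1 * (8 * d * r * (t + Mm δ Z T)) := by ring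
      _ ≤ lam * (8 * d * r * (t + Mm δ Z T)) := by
        refine mul_le_mul_of_nonneg_right hl1 ?_
        have : 0 ≤ t + Mm δ Z T := by linarith
        positivity
      _ = _ := by ring
  have hsub : {x : V (ι × δ) | lv δ Z T r t * (Bs b c).card < ns b c x} ⊆
      {x : V (ι × δ) | 4 * (t + 2 * L) * Real.sqrt (d * (2 * r) ^ 2) * (Bs b c).card <
        ns b c x} := by
    intro x hx
    exact lt_of_le_of_lt (mul_le_mul_of_nonneg_right hle hn0.le) hx
  refine (measureReal_mono hsub (measure_ne_top _ _)).trans (h1.trans (le_of_eq ?_))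
  have e1 : -((t + 2 * L) / 2) = -(t / 2) - L := by ring
  rw [e1, Real.exp_sub, hL, Real.exp_log (by linarith), ← hq]
  field_simp

/-- **the tail of the level sets** -/
theorem As.tail (h : As b Z j ρ r) (hδ : 0 < Fintype.card δ) {T : ℝ} (hT : 0 ≤ T)
    (hTs : ∑ c ∈ Z, Real.exp (-(T * (Bs b c).card)) ≤ 1) (t : ℝ) (ht : 1 ≤ t) :
    mu (rp b Z j r ρ) (lev b (lv δ Z T r t))ᶜ ≤ ENNReal.ofReal (Real.exp (-(t / 2))) := by
  have hprob : IsProbabilityMeasure (mu (rp b Z j r ρ)) := ⟨h.mass'⟩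
  have hset : (lev b (lv δ Z T r t))ᶜ = ⋃ c ∈ (Finset.univ : Finset β),
      {x : V (ι × δ) | lv δ Z T r t * (Bs b c).card < ns b c x} := by
    ext x
    simp only [lev, mem_compl_iff, mem_ofPred_eq, not_forall, not_le, mem_iUnion, Finset.mem_univ,
      exists_prop, true_and]
  have h2 : (mu (rp b Z j r ρ)).real (lev b (lv δ Z T r t))ᶜ ≤ Real.exp (-(t / 2)) := by
    rw [hset]
    refine (measureReal_biUnion_finset_le _ _).trans ?_
    rw [← Finset.sum_add_sum_compl Z]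
    have h3 : ∑ c ∈ Z, (mu (rp b Z j r ρ)).real
        {x : V (ι × δ) | lv δ Z T r t * (Bs b c).card < ns b c x} ≤ 1 / 2 * Real.exp (-(t / 2)) := by
      refine (Finset.sum_le_sum fun c hc => h.tz hδ hT c hc t ht).trans ?_
      rw [← Finset.sum_mul]
      exact mul_le_of_le_one_left (by positivity) hTs
    have h4 : ∑ c ∈ Zᶜ, (mu (rp b Z j r ρ)).real
        {x : V (ι × δ) | lv δ Z T r t * (Bs b c).card < ns b c x} ≤ 1 / 2 * Real.exp (-(t / 2)) := by
      refine (Finset.sum_le_sum fun c _ => h.tf hδ hT c t ht).trans ?_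
      rw [Finset.sum_const, nsmul_eq_mul, ← mul_assoc]
      refine mul_le_of_le_one_left (by positivity) ?_
      have h5 : (Zᶜ.card : ℝ) = q0 Z := by
        have : Zᶜ.card = q0 Z := by
          have h7 : q0 Z = (Finset.univ.filter fun c => c ∉ Z).card :=
            Fintype.card_of_subtype _ fun c => by simp
          rw [h7]
          congr 1
          ext c
          simp
        exact_mod_cast this
      rw [h5]
      have h6 : (0 : ℝ) ≤ q0 Z := Nat.cast_nonneg _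
      rw [← div_eq_mul_inv, div_le_one (by linarith)]
      linarith
    linarith
  rw [← ENNReal.ofReal_toReal (measure_ne_top (mu (rp b Z j r ρ)) (lev b (lv δ Z T r t))ᶜ)]
  exact ENNReal.ofReal_le_ofReal h2

end Pool.Agent.K6.H81.PS
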