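import Pool.Agent.K6.H81.PS.Major

/-!
# The tail of the total distance to the centre of mass
-/

set_option autoImplicit false

namespace Pool.Agent.K6.H81.PS

open MeasureTheory Set
open scoped ENNReal InnerProductSpace
open Pool.Agent.H212R2.KLS (mu Bdd)

/-- the density (up to a factor) of the centre of mass -/
noncomputable def ph (r t : ℝ) : ℝ := if |t| ≤ r then Real.exp (-(t ^ 2 / (2 * r ^ 2))) else 0

theorem ph_nonneg (r t : ℝ) : 0 ≤ ph r t := by
  unfold ph
  split_ifs
  · exact (Real.exp_pos _).le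
  · exact le_rfl

theorem ph_le (r t : ℝ) : ph r t ≤ 1 := by
  unfold ph
  split_ifs
  · rw [Real.exp_le_one_iff, neg_nonpos]
    positivity
  · exact zero_le_one

theorem ph_zero {r : ℝ} (hr : 0 < r) : ph r 0 = 1 := by
  unfold ph
  rw [abs_zero, if_pos hr.le]
  simp

theorem ph_ge {r : ℝ} (hr : 0 < r) {t : ℝ} (ht : |t| ≤ r) : 1 / 2 ≤ ph r t := by
  unfold ph
  rw [if_pos ht]
  have h1 : t ^ 2 / (2 * r ^ 2) ≤ 1 / 2 := by
    rw [div_le_div_iff₀ (by positivity) (by norm_num)]
    have h2 : t ^ 2 ≤ r ^ 2 := by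
      rw [← sq_abs t]
      exact pow_le_pow_left₀ (abs_nonneg _) ht 2
    linarith
  have h2 := Real.add_one_le_exp (-(t ^ 2 / (2 * r ^ 2)))
  linarith

theorem ph_mul {r : ℝ} (l t : ℝ) (hl : 1 ≤ l) : ph r (l * t) ≤ ph r t := by
  unfold ph
  have hlt : |t| ≤ |l * t| := by
    rw [abs_mul, abs_of_pos (by linarith : 0 < l)]
    nlinarith [abs_nonneg t]
  by_cases h : |l * t| ≤ r
  · rw [if_pos h, if_pos (hlt.trans h), Real.exp_le_exp, neg_le_neg_iff]
    apply div_le_div_of_nonneg_right _ (by positivity)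
    rw [← sq_abs t, ← sq_abs (l * t)]
    exact pow_le_pow_left₀ (abs_nonneg _) hlt 2
  · rw [if_neg h]
    exact (ph_nonneg r t)

theorem ph_meas (r : ℝ) : Measurable (ph r) := by
  unfold ph
  refine Measurable.ite ?_ (by fun_prop) measurable_const
  exact measurableSet_le (by fun_prop) measurable_const

variable {κ : Type} [Fintype κ]

theorem vol_cube (h : ℝ) (hh : 0 ≤ h) :
    volume {x : V κ | ∀ i, |x i| ≤ h / 2} = ENNReal.ofReal (h ^ Fintype.card κ) := by
  have h1 : {x : V κ | ∀ i, |x i| ≤ h / 2} =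
      (fun x : V κ => x.ofLp) ⁻¹' (Icc (fun _ => -(h / 2)) (fun _ => h / 2)) := by
    ext x
    simp only [mem_ofPred_eq, mem_preimage, mem_Icc, Pi.le_def, abs_le, ← forall_and]
  have h2 := (PiLp.volume_preserving_ofLp κ).measure_preimage
    (measurableSet_Icc (a := fun _ : κ => -(h / 2)) (b := fun _ => h / 2)).nullMeasurableSet
  rw [h1]
  refine h2.trans ?_
  rw [Real.volume_Icc_pi]
  have h3 : h / 2 - -(h / 2) = h := by ring
  simp only [h3, Finset.prod_const, Finset.card_univ]
  rw [ENNReal.ofReal_pow hh]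

/-- a part of the cylinder over the central section of the cube -/
def slab (κ : Type) [Fintype κ] (h r : ℝ) : Set (V κ) :=
  {x | (∀ i, |ct x i| ≤ h) ∧ |Real.sqrt (Fintype.card κ) * av x| ≤ r}

theorem av_cont : Continuous (av (κ := κ)) := by
  unfold av
  fun_prop

theorem ct_cont (i : κ) : Continuous fun x : V κ => ct x i := by
  simp only [ct_apply]
  have := av_cont (κ := κ)
  fun_prop

theorem slab_closed (h r : ℝ) : IsClosed (slab κ h r) := by
  unfold slab
  have h1 : {x : V κ | (∀ i, |ct x i| ≤ h) ∧ |Real.sqrt (Fintype.card κ) * av x| ≤ r} =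
      (⋂ i, {x : V κ | |ct x i| ≤ h}) ∩ {x | |Real.sqrt (Fintype.card κ) * av x| ≤ r} := by
    ext x
    simp
  rw [h1]
  refine IsClosed.inter (isClosed_iInter fun i => ?_) ?_
  · exact isClosed_le (ct_cont i).abs continuous_const
  · exact isClosed_le (continuous_const.mul av_cont).abs continuous_const

theorem slab_vol [Nonempty κ] (h r : ℝ) (hr : 0 < r) (hrh : r ≤ h) :
    ENNReal.ofReal (h ^ Fintype.card κ) ≤
      ENNReal.ofReal (5 * Real.sqrt (Fintype.card κ) * h / r) * volume (slab κ h r) := by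
  obtain ⟨n, hn⟩ : ∃ n : ℝ, n = Fintype.card κ := ⟨_, rfl⟩
  have hn1 : 1 ≤ n := by
    rw [hn]
    exact_mod_cast Fintype.card_pos
  have hh : 0 < h := lt_of_lt_of_le hr hrh
  obtain ⟨S, hS⟩ : ∃ S : ℝ, S = Real.sqrt n := ⟨_, rfl⟩
  have hS1 : 1 ≤ S := by
    rw [hS, ← Real.sqrt_one]
    exact Real.sqrt_le_sqrt hn1
  rw [← vol_cube h hh.le]
  have e0 : Real.sqrt (Fintype.card κ) = S := by rw [hS, hn]
  rw [e0]
  obtain ⟨K, hK⟩ : ∃ K : ℕ, K = ⌈S * h / (4 * r) + 1 / 2⌉₊ := ⟨_, rfl⟩
  have hK1 : S * h / (4 * r) + 1 / 2 ≤ K := by rw [hK]; exact Nat.le_ceil _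
  have hK2 : (K : ℝ) < S * h / (4 * r) + 1 / 2 + 1 := by
    rw [hK]
    exact Nat.ceil_lt_add_one (by positivity)
  have hcov : {x : V κ | ∀ i, |x i| ≤ h / 2} ⊆
      ⋃ k ∈ Finset.range (2 * K + 1),
        (fun x : V κ => x - cst (2 * r * ((k : ℝ) - K) / S)) ⁻¹' slab κ h r := by
    intro x hx
    have hav : |av x| ≤ h / 2 := by
      unfold av
      rw [← hn, abs_div, abs_of_pos (by linarith : 0 < n), div_le_iff₀ (by linarith : 0 < n)]
      refine (Finset.abs_sum_le_sum_abs _ _).trans ?_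
      refine (Finset.sum_le_sum fun i _ => hx i).trans (le_of_eq ?_)
      rw [Finset.sum_const, Finset.card_univ, nsmul_eq_mul, ← hn]
      ring
    obtain ⟨k', hk'⟩ : ∃ k' : ℤ, k' = round (S * av x / (2 * r)) := ⟨_, rfl⟩
    have hk1 : |S * av x / (2 * r) - k'| ≤ 1 / 2 := by
      rw [hk']
      exact abs_sub_round _
    have hk2 : |S * av x / (2 * r)| ≤ S * h / (4 * r) := by
      rw [abs_div, abs_mul, abs_of_pos (by linarith : 0 < S), abs_of_pos (by linarith : 0 < 2 * r),
        div_le_div_iff₀ (by positivity) (by positivity)]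
      have : S * |av x| ≤ S * (h / 2) := mul_le_mul_of_nonneg_left hav (by linarith)
      nlinarith
    have hk3 : |(k' : ℝ)| ≤ K := by
      have h1 : |(k' : ℝ)| ≤ |S * av x / (2 * r)| + |S * av x / (2 * r) - k'| := by
        have := abs_sub_abs_le_abs_sub (k' : ℝ) (S * av x / (2 * r))
        rw [abs_sub_comm] at this
        linarith
      linarith
    have hk4 := abs_le.1 hk3
    have hk5 : -(K : ℤ) ≤ k' := by exact_mod_cast hk4.1
    have hk6 : k' ≤ (K : ℤ) := by exact_mod_cast hk4.2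
    obtain ⟨k, hk⟩ : ∃ k : ℕ, (k : ℤ) = k' + K := ⟨(k' + K).toNat, Int.toNat_of_nonneg (by omega)⟩
    have hkr : (k : ℝ) - K = k' := by
      have : ((k : ℤ) : ℝ) = ((k' + K : ℤ) : ℝ) := by rw [hk]
      push_cast at this
      linarith
    rw [mem_iUnion₂]
    refine ⟨k, Finset.mem_range.2 (by omega), ?_⟩
    rw [hkr]
    obtain ⟨a, ha⟩ : ∃ a : ℝ, a = 2 * r * k' / S := ⟨_, rfl⟩
    have hav2 : av (x - cst a) = av x - a := by
      have h1 : x - cst a = x + (-1 : ℝ) • cst a := by
        rw [neg_one_smul, sub_eq_add_neg]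
      rw [h1, av_add, av_smul, av_cst]
      ring
    rw [mem_preimage, ← ha]
    refine ⟨fun i => ?_, ?_⟩
    · rw [ct_apply, hav2]
      have h1 : (x - cst a : V κ) i - (av x - a) = x i - av x := by
        show x i - a - (av x - a) = _
        ring
      rw [h1]
      refine (abs_sub _ _).trans ?_
      linarith [hx i]
    · rw [hav2, e0]
      have h1 : S * (av x - a) = 2 * r * (S * av x / (2 * r) - k') := by
        rw [ha]
        field_simp
      rw [h1, abs_mul, abs_of_pos (by linarith : 0 < 2 * r)]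
      nlinarith
  refine (measure_mono hcov).trans ((measure_biUnion_finset_le _ _).trans ?_)
  have h1 : ∀ k ∈ Finset.range (2 * K + 1),
      volume ((fun x : V κ => x - cst (2 * r * ((k : ℝ) - K) / S)) ⁻¹' slab κ h r) =
        volume (slab κ h r) := fun k _ =>
    (measurePreserving_sub_right volume _).measure_preimage
      (slab_closed h r).measurableSet.nullMeasurableSet
  rw [Finset.sum_congr rfl h1, Finset.sum_const, Finset.card_range, nsmul_eq_mul]
  gcongr
  rw [← ENNReal.ofReal_natCast]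
  apply ENNReal.ofReal_le_ofReal
  push_cast
  have h2 : 1 ≤ S * h / r := by
    rw [le_div_iff₀ hr]
    nlinarith
  have h3 : S * h / (4 * r) = (S * h / r) / 4 := by
    rw [mul_comm 4 r, ← div_div]
  have h4 : 5 * S * h / r = 5 * (S * h / r) := by ring
  rw [h4]
  rw [h3] at hK2
  linarith

variable {m : V κ → ℝ}

theorem le_m0 [Nonempty κ] {r : ℝ} (hr : 0 < r) (h : HD (ph r) m) (x : V κ) : m x ≤ m 0 := by
  rw [h.factor (ph_zero hr)]
  have h1 := le_zero h (ct x) (sum_ct x)
  have h2 := mul_le_mul h1 (ph_le r (Real.sqrt (Fintype.card κ) * av x)) (ph_nonneg _ _)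
    (h.nonneg 0)
  rwa [mul_one] at h2

/-- upper bound of the density at points far from the centre -/
theorem up [Nonempty κ] {r : ℝ} (hr : 0 < r) (h : HD (ph r) m) (h1 : mu m univ = 1) (y : V κ)
    (hy : ∑ i, y i = 0) (l : ℝ) (hl : 1 ≤ l) (hly : 2 * l * r * Fintype.card κ ≤ l1 y) :
    m y * (l ^ (Fintype.card κ - 1) * r ^ Fintype.card κ) ≤
      10 * Real.sqrt (Fintype.card κ) := by
  obtain ⟨N, hN⟩ : ∃ N : ℕ, N = Fintype.card κ := ⟨_, rfl⟩
  have hN1 : 1 ≤ N := by rw [hN]; exact Fintype.card_pos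
  have hN0 : (0 : ℝ) < N := by exact_mod_cast hN1
  have hsv := slab_vol (κ := κ) (l * r) r hr (by nlinarith)
  rw [← hN] at hsv hly ⊢
  have hS0 : 0 < Real.sqrt N := Real.sqrt_pos.2 hN0
  have hl0 : 0 < l := by linarith
  -- the mass of the slab
  have h2 : ENNReal.ofReal (m y / 2) * volume (slab κ (l * r) r) ≤ 1 := by
    rw [← h1]
    refine le_trans ?_ (measure_mono (subset_univ (slab κ (l * r) r)))
    unfold mu
    rw [withDensity_apply _ (slab_closed _ _).measurableSet, ← setLIntegral_const]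
    refine setLIntegral_mono' (slab_closed _ _).measurableSet fun x hx => ?_
    apply ENNReal.ofReal_le_ofReal
    rw [h.factor (ph_zero hr) x]
    have h3 : m y ≤ m (ct x) := by
      refine major h (ct x) y (sum_ct x) hy N (by rw [hN]) fun i => ?_
      have h4 : |ct x i| * (2 * N) ≤ (l * r) * (2 * N) :=
        mul_le_mul_of_nonneg_right (hx.1 i) (by positivity)
      refine h4.trans ?_
      linarith
    have h4 := ph_ge hr hx.2
    calc m y / 2 = m y * (1 / 2) := by ring
      _ ≤ m (ct x) * ph r (Real.sqrt (Fintype.card κ) * av x) :=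
        mul_le_mul h3 h4 (by norm_num) (h.nonneg _)
  have h3 : ENNReal.ofReal (m y / 2) * ENNReal.ofReal ((l * r) ^ N) ≤
      ENNReal.ofReal (5 * Real.sqrt N * (l * r) / r) := by
    calc ENNReal.ofReal (m y / 2) * ENNReal.ofReal ((l * r) ^ N)
        ≤ ENNReal.ofReal (m y / 2) * (ENNReal.ofReal (5 * Real.sqrt N * (l * r) / r) *
          volume (slab κ (l * r) r)) := by gcongr
      _ = ENNReal.ofReal (5 * Real.sqrt N * (l * r) / r) * (ENNReal.ofReal (m y / 2) *
          volume (slab κ (l * r) r)) := by ring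
      _ ≤ ENNReal.ofReal (5 * Real.sqrt N * (l * r) / r) * 1 := by gcongr
      _ = _ := mul_one _
  have hmy := h.nonneg y
  rw [← ENNReal.ofReal_mul (by positivity)] at h3
  have h4 := (ENNReal.ofReal_le_ofReal_iff (by positivity)).1 h3
  have h5 : 5 * Real.sqrt N * (l * r) / r = 5 * Real.sqrt N * l := by
    field_simp
  rw [h5] at h4
  have h6 : l ^ N = l * l ^ (N - 1) := by
    rw [← pow_succ', Nat.sub_add_cancel hN1]
  rw [mul_pow, h6] at h4
  have h7 : l * (m y * (l ^ (N - 1) * r ^ N)) ≤ l * (10 * Real.sqrt N) := by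
    calc l * (m y * (l ^ (N - 1) * r ^ N)) = 2 * (m y / 2 * (l * l ^ (N - 1) * r ^ N)) := by ring
      _ ≤ 2 * (5 * Real.sqrt N * l) := by linarith
      _ = _ := by ring
  exact le_of_mul_le_mul_left h7 hl0

end Pool.Agent.K6.H81.PS
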